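import Pool.Agent.V113.Rec.Case2

set_option autoImplicit false
open Finset

namespace Pool.Agent.V113.Rec

variable {n m : ℕ}

/-- few permutations have small support -/
lemma small_perms (m k0 : ℕ) (hm : 1 ≤ m) :
    ((univ.filter fun σ : Equiv.Perm (Fin m) => σ.support.card ≤ k0).card : ℝ) ≤ 2 ^ m * (m : ℝ) ^ k0 := by
  have hA : ∀ A ∈ (univ : Finset (Finset (Fin m))).filter (fun A => A.card ≤ k0),
      (univ.filter fun σ : Equiv.Perm (Fin m) => σ.support = A).card ≤ m ^ k0 := by
    intro A hA
    simp only [mem_filter, mem_univ, true_and] at hA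
    have h1 : (univ.filter fun σ : Equiv.Perm (Fin m) => σ.support = A).card
        ≤ (univ : Finset (A → Fin m)).card := by
      apply Finset.card_le_card_of_injOn (fun σ : Equiv.Perm (Fin m) => fun a : A => σ a)
      · intro σ _; exact mem_coe.mpr (mem_univ _)
      · intro σ hσ τ hτ h
        simp only [coe_filter, mem_univ, true_and, Set.mem_ofPred_eq] at hσ hτ
        ext i
        by_cases hi : i ∈ A
        · exact congrArg Fin.val (congrFun h ⟨i, hi⟩)
        · have h1 : σ i = i := by
            rw [← hσ] at hi
            exact Equiv.Perm.notMem_support.mp hi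
          have h2 : τ i = i := by
            rw [← hτ] at hi
            exact Equiv.Perm.notMem_support.mp hi
          rw [h1, h2]
    refine h1.trans ?_
    rw [card_univ, Fintype.card_fun, Fintype.card_fin, Fintype.card_coe]
    exact Nat.pow_le_pow_right hm hA
  have hsub : (univ.filter fun σ : Equiv.Perm (Fin m) => σ.support.card ≤ k0)
      ⊆ ((univ : Finset (Finset (Fin m))).filter (fun A => A.card ≤ k0)).biUnion
        (fun A => univ.filter fun σ : Equiv.Perm (Fin m) => σ.support = A) := by
    intro σ hσ
    rw [mem_biUnion]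
    simp only [mem_filter, mem_univ, true_and] at hσ ⊢
    exact ⟨σ.support, hσ, rfl⟩
  have h2 : (univ.filter fun σ : Equiv.Perm (Fin m) => σ.support.card ≤ k0).card ≤ 2 ^ m * m ^ k0 := by
    refine (card_le_card hsub).trans (card_biUnion_le.trans ?_)
    refine (Finset.sum_le_sum hA).trans ?_
    rw [Finset.sum_const, smul_eq_mul]
    apply Nat.mul_le_mul_right
    refine (card_filter_le _ _).trans ?_
    rw [card_univ, Fintype.card_finset, Fintype.card_fin]
  exact_mod_cast h2

/-- edges touching `A` -/
def tc (A : Finset (Fin m)) : Finset (E m) := univ.filter fun e => ∃ i ∈ A, i ∈ e.1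

/-- edges moved by `σ` -/
def mv (σ : Equiv.Perm (Fin m)) : Finset (E m) := univ.filter fun e => permE σ e ≠ e

lemma double_count (P : Finset (Fin m × Fin m)) (D : Finset (E m))
    (h : ∀ x ∈ P, ∃ hd : ¬ (s(x.1, x.2) : Sym2 (Fin m)).IsDiag, (⟨s(x.1, x.2), hd⟩ : E m) ∈ D) :
    P.card ≤ 2 * D.card := by
  have h1 : P.card ≤ 2 * (P.image fun x => s(x.1, x.2)).card := by
    apply Finset.card_le_mul_card_image
    intro e _
    induction e with
    | _ a b =>
      have : (P.filter fun x => s(x.1, x.2) = s(a, b)) ⊆ {(a, b), (b, a)} := by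
        intro x hx
        rw [mem_filter] at hx
        rw [mem_insert, mem_singleton]
        rcases Sym2.eq_iff.mp hx.2 with ⟨h3, h4⟩ | ⟨h3, h4⟩
        · left; exact Prod.ext h3 h4
        · right; exact Prod.ext h3 h4
      refine (card_le_card this).trans ?_
      exact card_le_two
  have h2 : (P.image fun x => s(x.1, x.2)).card ≤ D.card := by
    have : (P.image fun x => s(x.1, x.2)) ⊆ D.image Subtype.val := by
      intro e he
      rw [mem_image] at he
      obtain ⟨x, hx, rfl⟩ := he
      obtain ⟨hd, hD⟩ := h x hx
      rw [mem_image]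
      exact ⟨_, hD, rfl⟩
    exact (card_le_card this).trans card_image_le
  omega

lemma tc_card (A : Finset (Fin m)) : A.card * (m - 1) ≤ 2 * (tc A).card := by
  have h := double_count (A.sigma (fun i => univ.erase i) |>.image fun x => (x.1, x.2)) (tc A) ?_
  · refine le_trans (le_of_eq ?_) h
    rw [card_image_of_injective, card_sigma, Finset.sum_congr rfl (g := fun _ => m - 1), Finset.sum_const, smul_eq_mul]
    · intro i _
      rw [card_erase_of_mem (mem_univ _), card_univ, Fintype.card_fin]
    · intro x y hxy
      obtain ⟨a, b⟩ := x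
      obtain ⟨c, d⟩ := y
      simp only [Prod.mk.injEq] at hxy
      obtain ⟨rfl, rfl⟩ := hxy
      rfl
  · intro x hx
    rw [mem_image] at hx
    obtain ⟨⟨i, j⟩, hij, rfl⟩ := hx
    rw [mem_sigma] at hij
    have hne : j ≠ i := (mem_erase.mp hij.2).1
    refine ⟨by rw [Sym2.mk_isDiag_iff]; exact fun h => hne h.symm, ?_⟩
    unfold tc
    rw [mem_filter]
    exact ⟨mem_univ _, i, hij.1, by simp⟩

lemma mv_card (σ : Equiv.Perm (Fin m)) : σ.support.card * (m - 2) ≤ 2 * (mv σ).card := by
  have h := double_count (σ.support.sigma (fun i => (univ.erase i).erase (σ i)) |>.image fun x => (x.1, x.2)) (mv σ) ?_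
  · refine le_trans (le_of_eq ?_) h
    rw [card_image_of_injective, card_sigma, Finset.sum_congr rfl (g := fun _ => m - 2), Finset.sum_const, smul_eq_mul]
    · intro i hi
      rw [card_erase_of_mem, card_erase_of_mem (mem_univ _), card_univ, Fintype.card_fin]
      · omega
      · rw [mem_erase]
        exact ⟨Equiv.Perm.mem_support.mp hi, mem_univ _⟩
    · intro x y hxy
      obtain ⟨a, b⟩ := x
      obtain ⟨c, d⟩ := y
      simp only [Prod.mk.injEq] at hxy
      obtain ⟨rfl, rfl⟩ := hxy
      rfl
  · intro x hx
    rw [mem_image] at hx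
    obtain ⟨⟨i, j⟩, hij, rfl⟩ := hx
    rw [mem_sigma] at hij
    have h2 := mem_erase.mp hij.2
    have hne : j ≠ i := (mem_erase.mp h2.2).1
    have hd : ¬ (s(i, j) : Sym2 (Fin m)).IsDiag := by rw [Sym2.mk_isDiag_iff]; exact fun h => hne h.symm
    refine ⟨hd, ?_⟩
    unfold mv
    rw [mem_filter]
    exact ⟨mem_univ _, permE_ne σ i j hd (Equiv.Perm.mem_support.mp hij.1) h2.1⟩

/-- touching edges that are fixed -/
def fx (σ : Equiv.Perm (Fin m)) : Finset (E m) := univ.filter fun e => permE σ e = e ∧ e ∈ tc σ.support

lemma fx_card (σ : Equiv.Perm (Fin m)) : (fx σ).card ≤ m := by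
  have h1 : (fx σ).card ≤ ((univ : Finset (Fin m)).image fun i => s(i, σ i)).card := by
    apply Finset.card_le_card_of_injOn (fun e : E m => e.1)
    · intro e he
      rw [mem_coe] at he
      unfold fx at he
      rw [mem_filter] at he
      obtain ⟨_, he1, he2⟩ := he
      unfold tc at he2
      rw [mem_filter] at he2
      obtain ⟨_, i, hi, hie⟩ := he2
      rw [mem_coe, mem_image]
      refine ⟨i, mem_univ _, ?_⟩
      have h2 : Sym2.map σ e.1 = e.1 := congrArg Subtype.val he1
      obtain ⟨j, hj⟩ := Sym2.mem_iff_exists.mp hie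
      rw [hj, Sym2.map_mk, Sym2.eq_iff] at h2
      rcases h2 with ⟨h3, _⟩ | ⟨h3, _⟩
      · exact absurd h3 (Equiv.Perm.mem_support.mp hi)
      · show s(i, σ i) = e.1
        rw [hj, h3]
    · intro a _ b _ h
      exact Subtype.ext h
  refine h1.trans (card_image_le.trans ?_)
  rw [card_univ, Fintype.card_fin]

/-- number of present edges in `D` -/
def cnt (D : Finset (E m)) (η : E m → Bool) : ℕ := (D.filter fun e => η e = true).card

lemma lower_tail (p : ℝ) (h0 : 0 ≤ p) (h1 : p ≤ 1) (D : Finset (E m)) :
    ∑ η : E m → Bool, W p η * (if (cnt D η : ℝ) < p * D.card / 2 then 1 else 0) ≤ Real.exp (-(p * D.card / 8)) := by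
  have hpt : ∀ η : E m → Bool, W p η * (if (cnt D η : ℝ) < p * D.card / 2 then 1 else 0)
      ≤ Real.exp (p * D.card / 2) * ∏ e, (wt p (η e) * (if e ∈ D ∧ η e = true then Real.exp (-1) else 1)) := by
    intro η
    have hprod : ∏ e, (wt p (η e) * (if e ∈ D ∧ η e = true then Real.exp (-1) else 1))
        = W p η * Real.exp (-(cnt D η : ℝ)) := by
      rw [Finset.prod_mul_distrib, ← Finset.prod_filter, Finset.prod_const]
      unfold W cnt
      congr 1
      rw [← Real.exp_nat_mul]
      have : univ.filter (fun e => e ∈ D ∧ η e = true) = D.filter (fun e => η e = true) := by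
        ext e; simp
      rw [this]
      ring_nf
    rw [hprod]
    have hW := W_nonneg h0 h1 η
    split_ifs with h
    · have : 1 ≤ Real.exp (p * D.card / 2) * Real.exp (-(cnt D η : ℝ)) := by
        rw [← Real.exp_add]
        apply Real.one_le_exp
        linarith
      calc W p η * 1 ≤ W p η * (Real.exp (p * D.card / 2) * Real.exp (-(cnt D η : ℝ))) := by gcongr
        _ = _ := by ring
    · rw [mul_zero]; positivity
  refine (Finset.sum_le_sum fun η _ => hpt η).trans ?_
  rw [← Finset.mul_sum, prod_formula (fun e x => wt p x * (if e ∈ D ∧ x = true then Real.exp (-1) else 1))]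
  have hb : ∏ e : E m, (wt p true * (if e ∈ D ∧ true = true then Real.exp (-1) else 1)
      + wt p false * (if e ∈ D ∧ false = true then Real.exp (-1) else 1)) ≤ Real.exp (-(p * D.card * (5 / 8))) := by
    have : ∀ e : E m, (wt p true * (if e ∈ D ∧ true = true then Real.exp (-1) else 1)
      + wt p false * (if e ∈ D ∧ false = true then Real.exp (-1) else 1)) ≤ (if e ∈ D then Real.exp (-(p * (5 / 8))) else 1) := by
      intro e
      by_cases he : e ∈ D
      · simp only [he, wt, true_and, if_true, Bool.false_eq_true, if_false, mul_one]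
        have h3 : Real.exp (-1) ≤ 3 / 8 := by
          rw [Real.exp_neg, inv_le_comm₀ (Real.exp_pos _) (by norm_num)]
          have := Real.exp_one_gt_d9
          norm_num
          linarith
        have h4 := Real.add_one_le_exp (-(p * (5 / 8)))
        nlinarith
      · simp [he, wt]
    calc _ ≤ ∏ e : E m, (if e ∈ D then Real.exp (-(p * (5 / 8))) else 1) := by
          apply Finset.prod_le_prod
          · intro e _
            have := Real.exp_pos (-1)
            have hq : 0 ≤ 1 - p := by linarith
            apply add_nonneg <;> apply mul_nonneg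
            · simp [wt, h0]
            · split_ifs <;> linarith
            · simp [wt, hq]
            · split_ifs <;> linarith
          · intro e _; exact this e
      _ = Real.exp (-(p * D.card * (5 / 8))) := by
          rw [Finset.prod_ite_mem, univ_inter, Finset.prod_const, ← Real.exp_nat_mul]
          ring_nf
  calc _ ≤ Real.exp (p * D.card / 2) * Real.exp (-(p * D.card * (5 / 8))) := by gcongr
    _ = _ := by rw [← Real.exp_add]; ring_nf

lemma W2 (p : ℝ) (h0 : 0 ≤ p) (h1 : p ≤ 1 / 2) (σ : Equiv.Perm (Fin m)) [∀ η : E m → Bool, Decidable (σ ∈ autG (gr η))] :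
    ∑ η : E m → Bool, W p η * (if σ ∈ autG (gr η) then 1 else 0) ≤ Real.exp (-(p * (mv σ).card / 2)) := by
  classical
  have hq : 0 < 1 - p := by linarith
  set r := Real.sqrt (1 - p) with hr
  have hr0 : 0 < r := Real.sqrt_pos.mpr hq
  have hr1 : r ≤ 1 := by rw [hr, Real.sqrt_le_one]; linarith
  have hr2 : r ^ 2 = 1 - p := Real.sq_sqrt hq.le
  have hob := orbit_bound (permE σ) (fun _ x => wt p x) (fun b x => by
      cases x <;> simp [wt, h0, hq.le]) (fun b => if permE σ b ≠ b then r else 1) ?_ ?_
  · have hconv : ∀ η : E m → Bool, W p η * (if σ ∈ autG (gr η) then 1 else 0)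
        = (if ∀ b, η (permE σ b) = η b then ∏ b, wt p (η b) else 0) := by
      intro η
      by_cases h : σ ∈ autG (gr η)
      · rw [if_pos h, if_pos ((mem_autG σ η).mp h)]; simp [W]
      · rw [if_neg h, if_neg (fun hh => h ((mem_autG σ η).mpr hh)), mul_zero]
    rw [Finset.sum_congr rfl fun η _ => hconv η]
    refine hob.trans ?_
    rw [← Finset.prod_filter, Finset.prod_const]
    have hre : r ≤ Real.exp (-(p / 2)) := by
      rw [hr]
      apply Real.sqrt_le_iff.mpr
      refine ⟨(Real.exp_pos _).le, ?_⟩
      rw [← Real.exp_nat_mul]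
      have := Real.one_sub_le_exp_neg p
      refine this.trans (le_of_eq ?_)
      congr 1
      push_cast; ring
    calc r ^ (univ.filter fun b => permE σ b ≠ b).card ≤ Real.exp (-(p / 2)) ^ (univ.filter fun b => permE σ b ≠ b).card := by
          gcongr
      _ = Real.exp (-(p * (mv σ).card / 2)) := by
          rw [← Real.exp_nat_mul]
          unfold mv
          ring_nf
  · intro b hb
    rw [if_neg (by simpa using hb)]
    simp [wt]
  · intro s hs hmv
    have hu : ∏ b ∈ s, (if permE σ b ≠ b then r else 1) = r ^ s.card := by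
      rw [Finset.prod_congr rfl (fun b hb => if_pos (hmv b hb)), Finset.prod_const]
    rw [hu, Finset.prod_const, Finset.prod_const]
    obtain ⟨k, hk⟩ : ∃ k, s.card = k + 2 := ⟨s.card - 2, by omega⟩
    rw [hk]
    simp only [wt, if_true, Bool.false_eq_true, if_false]
    have h2 : p ^ (k + 2) ≤ p * (1 - p) ^ (k + 1) := by
      have : p ^ (k + 1) ≤ (1 - p) ^ (k + 1) := by gcongr; linarith
      calc p ^ (k + 2) = p * p ^ (k + 1) := by ring
        _ ≤ _ := by gcongr
    have h3 : p ^ (k + 2) + (1 - p) ^ (k + 2) ≤ (1 - p) ^ (k + 1) := by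
      have : (1 - p) ^ (k + 2) = (1 - p) * (1 - p) ^ (k + 1) := by ring
      have := pow_pos hq (k + 1)
      nlinarith
    refine h3.trans ?_
    rw [← hr2, ← pow_mul]
    exact pow_le_pow_of_le_one hr0.le hr1 (by omega)


/-- the exponential tilt for sparse graphs -/
lemma W1 (p : ℝ) (h0 : 0 < p) (h1 : p ≤ 1 / 2) (σ : Equiv.Perm (Fin m)) (t : ℝ)
    [∀ η : E m → Bool, Decidable (σ ∈ autG (gr η) ∧ t ≤ cnt (tc σ.support) η)] :
    ∑ η : E m → Bool, W p η * (if σ ∈ autG (gr η) ∧ t ≤ cnt (tc σ.support) η then 1 else 0)
      ≤ Real.exp (t / 2 * Real.log p) * (Real.exp (p * (m : ℝ) ^ 2 / 4) * 2 ^ m) := by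
  classical
  have hq : 0 < 1 - p := by linarith
  set r := Real.sqrt p with hr
  have hr0 : 0 < r := Real.sqrt_pos.mpr h0
  have hr2 : r ^ 2 = p := Real.sq_sqrt h0.le
  have hr1 : r ≤ 1 := by rw [hr, Real.sqrt_le_one]; linarith
  have hrexp : r = Real.exp (Real.log p / 2) := by
    rw [hr, ← Real.log_sqrt h0.le, Real.exp_log hr0]
  have hlog : Real.log p ≤ 0 := Real.log_nonpos h0.le (by linarith)
  set w : E m → Bool → ℝ := fun b x => if x = true then (if b ∈ tc σ.support then r else p) else 1 - p with hw
  set u : E m → ℝ := fun b => if permE σ b ≠ b then Real.exp (p / 2) else (if b ∈ tc σ.support then 2 else 1) with hu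
  have hob := orbit_bound (permE σ) w ?_ u ?_ ?_
  · have hpt : ∀ η : E m → Bool, W p η * (if σ ∈ autG (gr η) ∧ t ≤ cnt (tc σ.support) η then 1 else 0)
        ≤ Real.exp (t / 2 * Real.log p) * (if ∀ b, η (permE σ b) = η b then ∏ b, w b (η b) else 0) := by
      intro η
      have hprod0 : 0 ≤ ∏ b, w b (η b) := by
        apply Finset.prod_nonneg
        intro b _
        simp only [hw]
        split_ifs <;> linarith
      by_cases h : σ ∈ autG (gr η) ∧ t ≤ cnt (tc σ.support) η
      · rw [if_pos h, if_pos ((mem_autG σ η).mp h.1), mul_one]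
        have hWp : W p η = r ^ (cnt (tc σ.support) η) * ∏ b, w b (η b) := by
          have h3 : r ^ (cnt (tc σ.support) η) = ∏ b : E m, (if b ∈ tc σ.support ∧ η b = true then r else 1) := by
            rw [← Finset.prod_filter, Finset.prod_const]
            unfold cnt
            congr 2
            ext e; simp
          rw [h3, ← Finset.prod_mul_distrib]
          unfold W
          refine Finset.prod_congr rfl fun b _ => ?_
          simp only [hw, wt]
          by_cases hb : η b = true
          · by_cases hb2 : b ∈ tc σ.support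
            · simp only [hb, hb2, if_true, and_true]
              rw [← sq, hr2]
            · simp only [hb, hb2, if_true, and_true, if_false, one_mul]
          · simp [hb]
        rw [hWp]
        apply mul_le_mul_of_nonneg_right _ hprod0
        rw [hrexp, ← Real.exp_nat_mul]
        apply Real.exp_le_exp.mpr
        have := mul_le_mul_of_nonpos_right h.2 hlog
        linarith
      · rw [if_neg h, mul_zero]
        split_ifs
        · positivity
        · simp
    refine (Finset.sum_le_sum fun η _ => hpt η).trans ?_
    rw [← Finset.mul_sum]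
    gcongr
    refine hob.trans ?_
    have hsplit : ∀ b : E m, u b ≤ Real.exp (p / 2) * (if b ∈ fx σ then 2 else 1) := by
      intro b
      have he : 1 ≤ Real.exp (p / 2) := Real.one_le_exp (by linarith)
      simp only [hu]
      by_cases hb : permE σ b ≠ b
      · rw [if_pos hb]
        have : b ∉ fx σ := by unfold fx; simp [hb]
        rw [if_neg this]; linarith
      · rw [if_neg hb]
        push Not at hb
        by_cases hb2 : b ∈ tc σ.support
        · have : b ∈ fx σ := by unfold fx; simp [hb, hb2]
          rw [if_pos this, if_pos hb2]; linarith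
        · rw [if_neg hb2]
          split_ifs <;> linarith
    calc ∏ b, u b ≤ ∏ b : E m, (Real.exp (p / 2) * (if b ∈ fx σ then 2 else 1)) := by
          apply Finset.prod_le_prod
          · intro b _
            simp only [hu]
            have := Real.exp_pos (p / 2)
            split_ifs <;> linarith
          · intro b _; exact hsplit b
      _ = Real.exp (p / 2) ^ (Fintype.card (E m)) * 2 ^ (fx σ).card := by
          rw [Finset.prod_mul_distrib, Finset.prod_const, card_univ, Finset.prod_ite_mem, univ_inter,
            Finset.prod_const]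
      _ ≤ Real.exp (p * (m : ℝ) ^ 2 / 4) * 2 ^ m := by
          have hE : (Fintype.card (E m) : ℝ) ≤ (m : ℝ) ^ 2 / 2 := by
            have h := Sym2.card_subtype_not_diag (α := Fin m)
            have h2 : Fintype.card (E m) = m.choose 2 := by simpa using h
            rw [h2, Nat.cast_choose_two]
            have : (0 : ℝ) ≤ m := by positivity
            nlinarith
          have h4 : Real.exp (p / 2) ^ (Fintype.card (E m)) ≤ Real.exp (p * (m : ℝ) ^ 2 / 4) := by
            rw [← Real.exp_nat_mul]
            apply Real.exp_le_exp.mpr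
            have := mul_le_mul_of_nonneg_right hE (by linarith : 0 ≤ p / 2)
            linarith
          have h5 : (2 : ℝ) ^ (fx σ).card ≤ 2 ^ m := pow_le_pow_right₀ (by norm_num) (fx_card σ)
          gcongr
  · intro b x
    simp only [hw]
    split_ifs <;> linarith
  · intro b hb
    simp only [hw, hu, hb, ne_eq, not_true_eq_false, if_false, if_true, Bool.false_eq_true]
    split_ifs <;> linarith
  · intro s hs hmv
    have htc : ∀ b ∈ s, b ∈ tc σ.support := by
      intro b hb
      by_contra hcon
      apply hmv b hb
      apply permE_touch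
      intro i hi
      by_contra hne
      apply hcon
      unfold tc
      rw [mem_filter]
      exact ⟨mem_univ _, i, Equiv.Perm.mem_support.mpr hne, hi⟩
    have e1 : ∏ b ∈ s, w b true = r ^ s.card := by
      rw [Finset.prod_congr rfl (g := fun _ => r), Finset.prod_const]
      intro b hb
      simp only [hw, if_true, if_pos (htc b hb)]
    have e2 : ∏ b ∈ s, w b false = (1 - p) ^ s.card := by
      rw [Finset.prod_congr rfl (g := fun _ => 1 - p), Finset.prod_const]
      intro b hb
      simp [hw]
    have e3 : ∏ b ∈ s, u b = Real.exp (p / 2) ^ s.card := by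
      rw [Finset.prod_congr rfl (g := fun _ => Real.exp (p / 2)), Finset.prod_const]
      intro b hb
      simp only [hu, if_pos (hmv b hb)]
    rw [e1, e2, e3]
    have k1 : r ^ s.card ≤ r ^ 2 := pow_le_pow_of_le_one hr0.le hr1 hs
    have k2 : (1 - p) ^ s.card ≤ 1 := pow_le_one₀ hq.le (by linarith)
    have k3 : Real.exp (p / 2) ^ 2 ≤ Real.exp (p / 2) ^ s.card :=
      pow_le_pow_right₀ (Real.one_le_exp (by linarith)) hs
    have k4 : 1 + p ≤ Real.exp (p / 2) ^ 2 := by
      rw [← Real.exp_nat_mul]
      have := Real.add_one_le_exp p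
      refine le_trans (by linarith) (this.trans (le_of_eq ?_))
      congr 1; push_cast; ring
    rw [hr2] at k1
    linarith

end Pool.Agent.V113.Rec
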