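import Pool.Agent.V113.Rec.Aut

set_option autoImplicit false
open Finset

namespace Pool.Agent.V113.Rec

open Classical in
/-- the automorphism group is at most `exp (70 m)` with large probability -/
lemma aut_prob (m : ℕ) (hm : 5 ≤ m) (hL : 3 ≤ Real.log m) (hL4 : Real.log m ^ 4 ≤ m) (p : ℝ) (h0 : 0 < p)
    (h1 : p ≤ 1 / 2) (hp : Real.log m ≤ 2 * (m * p)) :
    ∑ η : E m → Bool, W p η * (if Real.exp (70 * m) < ((autG (gr η)).card : ℝ) then 1 else 0) ≤ 1 / 16 := by
  set L := Real.log m with hLdef
  have hmr : (5 : ℝ) ≤ m := by exact_mod_cast hm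
  have hmpos : (0 : ℝ) < m := by linarith
  have hLm : L ≤ m := Real.log_le_self (by linarith)
  set k0 := ⌈68 * (m : ℝ) / L⌉₊ with hk0
  have hk1 : 68 * (m : ℝ) / L ≤ k0 := Nat.le_ceil _
  have hk2 : (k0 : ℝ) < 68 * (m : ℝ) / L + 1 := Nat.ceil_lt_add_one (by positivity)
  have hkL : 68 * (m : ℝ) ≤ k0 * L := by rwa [div_le_iff₀ (by linarith)] at hk1
  have hmexp : (m : ℝ) = Real.exp L := by rw [hLdef, Real.exp_log hmpos]
  have h2exp : (2 : ℝ) ^ m ≤ Real.exp (0.7 * m) := by
    have : (2 : ℝ) = Real.exp (Real.log 2) := by rw [Real.exp_log (by norm_num)]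
    rw [this, ← Real.exp_nat_mul]
    apply Real.exp_le_exp.mpr
    have := Real.log_two_lt_d9
    nlinarith
  -- small supports
  have hsmall : ((univ.filter fun σ : Equiv.Perm (Fin m) => σ.support.card ≤ k0).card : ℝ) ≤ Real.exp (70 * m) := by
    refine (small_perms m k0 (by omega)).trans ?_
    have h3 : (m : ℝ) ^ k0 = Real.exp (k0 * L) := by rw [Real.exp_nat_mul, ← hmexp]
    rw [h3]
    calc (2 : ℝ) ^ m * Real.exp (k0 * L) ≤ Real.exp (0.7 * m) * Real.exp (k0 * L) := by gcongr
      _ = Real.exp (0.7 * m + k0 * L) := by rw [← Real.exp_add]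
      _ ≤ _ := by
        apply Real.exp_le_exp.mpr
        have : (k0 : ℝ) * L ≤ 68 * m + L := by
          have h4 : (k0 : ℝ) * L ≤ (68 * (m : ℝ) / L + 1) * L := by
            apply mul_le_mul_of_nonneg_right hk2.le; linarith
          have h5 : (68 * (m : ℝ) / L + 1) * L = 68 * m + L := by field_simp
          linarith
        have : L ≤ m / 2 := by
          have h6 : L ^ 4 ≤ m := hL4
          have : 27 * L ≤ L ^ 4 := by nlinarith [sq_nonneg L, mul_self_nonneg (L ^ 2 - 9)]
          linarith
        linarith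
  have hcardσ : ((univ : Finset (Equiv.Perm (Fin m))).card : ℝ) ≤ Real.exp (m * L) := by
    rw [card_univ, Fintype.card_perm, Fintype.card_fin, Real.exp_nat_mul, ← hmexp]
    exact_mod_cast Nat.factorial_le_pow m
  set Big : Finset (Equiv.Perm (Fin m)) := univ.filter fun σ => k0 < σ.support.card with hBig
  have hBigc : ((Big.card : ℕ) : ℝ) ≤ Real.exp (m * L) := by
    refine le_trans ?_ hcardσ
    exact_mod_cast card_le_card (subset_univ _)
  -- if the group is large there is an automorphism with large support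
  have hex : ∀ η : E m → Bool, Real.exp (70 * m) < ((autG (gr η)).card : ℝ) → ∃ σ ∈ Big, σ ∈ autG (gr η) := by
    intro η h
    by_contra hcon
    push Not at hcon
    have hsub : autG (gr η) ⊆ univ.filter fun σ : Equiv.Perm (Fin m) => σ.support.card ≤ k0 := by
      intro σ hσ
      rw [mem_filter]
      refine ⟨mem_univ _, ?_⟩
      by_contra hk
      push Not at hk
      exact hcon σ (by rw [hBig, mem_filter]; exact ⟨mem_univ _, hk⟩) hσ
    have : ((autG (gr η)).card : ℝ) ≤ Real.exp (70 * m) := by
      refine le_trans ?_ hsmall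
      exact_mod_cast card_le_card hsub
    linarith
  have hWn : ∀ η : E m → Bool, 0 ≤ W p η := W_nonneg h0.le (by linarith)
  have hexp4 : Real.exp (-4) ≤ 1 / 32 := by
    rw [Real.exp_neg, inv_le_comm₀ (Real.exp_pos _) (by norm_num)]
    have h3 : Real.exp 4 = Real.exp 1 ^ 4 := by rw [← Real.exp_nat_mul]; norm_num
    rw [h3]
    have := Real.exp_one_gt_d9
    calc ((1 : ℝ) / 32)⁻¹ ≤ 2.7182818283 ^ 4 := by norm_num
      _ ≤ _ := by gcongr
  rcases le_total (p * Real.sqrt m) 1 with hcase | hcase
  · -- sparse case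
    have hlogp : Real.log p ≤ - (L / 2) := by
      have h3 : Real.log (p * Real.sqrt m) ≤ 0 := Real.log_nonpos (by positivity) hcase
      rw [Real.log_mul h0.ne' (by positivity), Real.log_sqrt hmpos.le] at h3
      linarith
    set BA : Finset (Finset (Fin m)) := univ.filter fun A => k0 < A.card with hBA
    have htcA : ∀ A ∈ BA, (k0 : ℝ) * ((m : ℝ) - 1) ≤ 2 * (tc A).card := by
      intro A hA
      rw [hBA, mem_filter] at hA
      have h3 := tc_card A
      have h4 : ((A.card * (m - 1) : ℕ) : ℝ) ≤ ((2 * (tc A).card : ℕ) : ℝ) := by exact_mod_cast h3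
      push_cast [Nat.cast_sub (by omega : 1 ≤ m)] at h4
      have h5 : (k0 : ℝ) ≤ A.card := by exact_mod_cast hA.2.le
      have : (k0 : ℝ) * ((m : ℝ) - 1) ≤ A.card * ((m : ℝ) - 1) := by
        apply mul_le_mul_of_nonneg_right h5; linarith
      linarith
    have hpk : 34 ≤ p * k0 := by
      have h3 : 68 * (m : ℝ) * L ≤ (k0 * L) * (2 * (m * p)) := by
        apply mul_le_mul hkL hp (by linarith) (by positivity)
      have h4 : 0 < (m : ℝ) * L := by positivity
      have h5 : (k0 * L) * (2 * (m * p)) = 2 * (p * k0) * (m * L) := by ring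
      rw [h5] at h3
      have h6 : 68 * ((m : ℝ) * L) ≤ 2 * (p * k0) * (m * L) := by linarith
      have := le_of_mul_le_mul_right h6 h4
      linarith
    have hpt : ∀ η : E m → Bool, W p η * (if Real.exp (70 * m) < ((autG (gr η)).card : ℝ) then 1 else 0)
        ≤ ∑ A ∈ BA, W p η * (if (cnt (tc A) η : ℝ) < p * (tc A).card / 2 then 1 else 0)
          + ∑ σ ∈ Big, W p η * (if σ ∈ autG (gr η) ∧ p * (tc σ.support).card / 2 ≤ cnt (tc σ.support) η then 1 else 0) := by
      intro η
      have hn1 : 0 ≤ ∑ A ∈ BA, W p η * (if (cnt (tc A) η : ℝ) < p * (tc A).card / 2 then (1 : ℝ) else 0) :=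
        Finset.sum_nonneg fun A _ => mul_nonneg (hWn η) (by split_ifs <;> norm_num)
      have hn2 : 0 ≤ ∑ σ ∈ Big, W p η * (if σ ∈ autG (gr η) ∧ p * (tc σ.support).card / 2 ≤ cnt (tc σ.support) η then (1 : ℝ) else 0) :=
        Finset.sum_nonneg fun A _ => mul_nonneg (hWn η) (by split_ifs <;> norm_num)
      split_ifs with h
      · obtain ⟨σ, hσB, hσ⟩ := hex η h
        by_cases hc : (cnt (tc σ.support) η : ℝ) < p * (tc σ.support).card / 2
        · have hAB : σ.support ∈ BA := by
            rw [hBig, mem_filter] at hσB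
            rw [hBA, mem_filter]
            exact ⟨mem_univ _, hσB.2⟩
          have h3 := Finset.single_le_sum (f := fun A => W p η * (if (cnt (tc A) η : ℝ) < p * (tc A).card / 2 then (1 : ℝ) else 0))
            (fun A _ => mul_nonneg (hWn η) (by split_ifs <;> norm_num)) hAB
          simp only [if_pos hc] at h3
          linarith
        · push Not at hc
          have h3 := Finset.single_le_sum (f := fun σ : Equiv.Perm (Fin m) => W p η * (if σ ∈ autG (gr η) ∧ p * (tc σ.support).card / 2 ≤ cnt (tc σ.support) η then (1 : ℝ) else 0))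
            (fun A _ => mul_nonneg (hWn η) (by split_ifs <;> norm_num)) hσB
          simp only [if_pos (And.intro hσ hc)] at h3
          linarith
      · rw [mul_zero]; linarith
    refine (Finset.sum_le_sum fun η _ => hpt η).trans ?_
    rw [Finset.sum_add_distrib, Finset.sum_comm, Finset.sum_comm (s := univ) (t := Big)]
    have hA : ∑ A ∈ BA, ∑ η : E m → Bool, W p η * (if (cnt (tc A) η : ℝ) < p * (tc A).card / 2 then 1 else 0) ≤ 1 / 32 := by
      have h3 : ∀ A ∈ BA, ∑ η : E m → Bool, W p η * (if (cnt (tc A) η : ℝ) < p * (tc A).card / 2 then 1 else 0)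
          ≤ Real.exp (-(34 * ((m : ℝ) - 1) / 16)) := by
        intro A hA
        refine (lower_tail p h0.le (by linarith) (tc A)).trans ?_
        apply Real.exp_le_exp.mpr
        have h4 := htcA A hA
        have h5 : p * (k0 * ((m : ℝ) - 1)) ≤ p * (2 * (tc A).card) := by gcongr
        have h6 : 34 * ((m : ℝ) - 1) ≤ (p * k0) * ((m : ℝ) - 1) := by
          apply mul_le_mul_of_nonneg_right hpk; linarith
        linarith
      refine (Finset.sum_le_sum h3).trans ?_
      rw [Finset.sum_const, nsmul_eq_mul]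
      have h4 : (BA.card : ℝ) ≤ Real.exp (0.7 * m) := by
        refine le_trans ?_ h2exp
        have : BA.card ≤ 2 ^ m := by
          refine (card_le_card (subset_univ _)).trans ?_
          rw [card_univ, Fintype.card_finset, Fintype.card_fin]
        exact_mod_cast this
      calc (BA.card : ℝ) * Real.exp (-(34 * ((m : ℝ) - 1) / 16))
          ≤ Real.exp (0.7 * m) * Real.exp (-(34 * ((m : ℝ) - 1) / 16)) := by gcongr
        _ = Real.exp (0.7 * m + -(34 * ((m : ℝ) - 1) / 16)) := by rw [← Real.exp_add]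
        _ ≤ Real.exp (-4) := by
            apply Real.exp_le_exp.mpr
            linarith
        _ ≤ _ := hexp4
    have hB : ∑ σ ∈ Big, ∑ η : E m → Bool, W p η * (if σ ∈ autG (gr η) ∧ p * (tc σ.support).card / 2 ≤ cnt (tc σ.support) η then 1 else 0) ≤ 1 / 32 := by
      have h3 : ∀ σ ∈ Big, ∑ η : E m → Bool, W p η * (if σ ∈ autG (gr η) ∧ p * (tc σ.support).card / 2 ≤ cnt (tc σ.support) η then 1 else 0)
          ≤ Real.exp (-(2 * m * L) + 2.125 * L + 0.7 * m) := by
        intro σ hσ
        refine (W1 p h0 h1 σ _).trans ?_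
        have hAB : σ.support ∈ BA := by
          rw [hBig, mem_filter] at hσ
          rw [hBA, mem_filter]
          exact ⟨mem_univ _, hσ.2⟩
        have h4 := htcA _ hAB
        set c : ℝ := ((tc σ.support).card : ℝ) with hc
        have h5 : p * c / 2 / 2 * Real.log p ≤ -(4.25 * (p * m) * (m - 1)) := by
          have k1 : p * c / 2 / 2 * Real.log p ≤ p * c / 2 / 2 * (-(L / 2)) := by
            apply mul_le_mul_of_nonneg_left hlogp
            have hc0 : 0 ≤ c := Nat.cast_nonneg _
            have := mul_nonneg h0.le hc0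
            linarith
          have k2 : (k0 * L) * ((m : ℝ) - 1) ≥ 68 * m * (m - 1) := by
            apply mul_le_mul_of_nonneg_right hkL; linarith
          have k3 : p * (68 * m * (m - 1)) ≤ p * ((k0 * L) * ((m : ℝ) - 1)) := by gcongr
          have k4 : p * L * (k0 * ((m : ℝ) - 1)) ≤ p * L * (2 * c) := by gcongr
          linarith
        have hy : L / 2 ≤ p * m := by linarith
        have h6 : -(4.25 * (p * m) * ((m : ℝ) - 1)) + p * (m : ℝ) ^ 2 / 4 ≤ -(2 * m * L) + 2.125 * L := by
          have : -(4.25 * (p * m) * ((m : ℝ) - 1)) + p * (m : ℝ) ^ 2 / 4 = -((p * m) * (4 * m - 4.25)) := by ring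
          rw [this]
          have h7 : L / 2 * (4 * (m : ℝ) - 4.25) ≤ (p * m) * (4 * m - 4.25) := by
            apply mul_le_mul_of_nonneg_right hy; linarith
          linarith
        calc Real.exp (p * c / 2 / 2 * Real.log p) * (Real.exp (p * (m : ℝ) ^ 2 / 4) * 2 ^ m)
            ≤ Real.exp (-(4.25 * (p * m) * (m - 1))) * (Real.exp (p * (m : ℝ) ^ 2 / 4) * Real.exp (0.7 * m)) := by
              gcongr
          _ = Real.exp (-(4.25 * (p * m) * (m - 1)) + (p * (m : ℝ) ^ 2 / 4 + 0.7 * m)) := by
              rw [← Real.exp_add, ← Real.exp_add]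
          _ ≤ _ := by
              apply Real.exp_le_exp.mpr
              linarith
      refine (Finset.sum_le_sum h3).trans ?_
      rw [Finset.sum_const, nsmul_eq_mul]
      calc (Big.card : ℝ) * Real.exp (-(2 * m * L) + 2.125 * L + 0.7 * m)
          ≤ Real.exp (m * L) * Real.exp (-(2 * m * L) + 2.125 * L + 0.7 * m) := by gcongr
        _ = Real.exp (m * L + (-(2 * m * L) + 2.125 * L + 0.7 * m)) := by rw [← Real.exp_add]
        _ ≤ Real.exp (-4) := by
            apply Real.exp_le_exp.mpr
            have : ((m : ℝ) - 2.125) * 3 ≤ (m - 2.125) * L := by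
              apply mul_le_mul_of_nonneg_left hL; linarith
            linarith
        _ ≤ _ := hexp4
    linarith
  · -- dense case
    have hpt : ∀ η : E m → Bool, W p η * (if Real.exp (70 * m) < ((autG (gr η)).card : ℝ) then 1 else 0)
        ≤ ∑ σ ∈ Big, W p η * (if σ ∈ autG (gr η) then 1 else 0) := by
      intro η
      split_ifs with h
      · obtain ⟨σ, hσB, hσ⟩ := hex η h
        have h3 := Finset.single_le_sum (f := fun σ : Equiv.Perm (Fin m) => W p η * (if σ ∈ autG (gr η) then (1 : ℝ) else 0))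
            (fun A _ => mul_nonneg (hWn η) (by split_ifs <;> norm_num)) hσB
        simp only [if_pos hσ] at h3
        exact h3
      · rw [mul_zero]
        exact Finset.sum_nonneg fun A _ => mul_nonneg (hWn η) (by split_ifs <;> norm_num)
    refine (Finset.sum_le_sum fun η _ => hpt η).trans ?_
    rw [Finset.sum_comm]
    have hs0 : 0 < Real.sqrt m := Real.sqrt_pos.mpr hmpos
    have hss : Real.sqrt m * Real.sqrt m = m := Real.mul_self_sqrt hmpos.le
    have hs1 : 1 ≤ Real.sqrt m := by
      rw [show (1 : ℝ) = Real.sqrt 1 by simp]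
      exact Real.sqrt_le_sqrt (by linarith)
    have hL2 : L ^ 2 ≤ Real.sqrt m := by
      apply Real.le_sqrt_of_sq_le
      have h44 : (L ^ 2) ^ 2 = L ^ 4 := by ring
      rw [h44]
      exact hL4
    have hpm : Real.sqrt m ≤ p * m := by
      have : (p * Real.sqrt m) * Real.sqrt m = p * m := by rw [mul_assoc, hss]
      rw [← this]
      nlinarith
    have h3 : ∀ σ ∈ Big, ∑ η : E m → Bool, W p η * (if σ ∈ autG (gr η) then 1 else 0)
        ≤ Real.exp (-(m * L) - 4) := by
      intro σ hσ
      refine (W2 p h0.le h1 σ).trans ?_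
      apply Real.exp_le_exp.mpr
      rw [hBig, mem_filter] at hσ
      have h4 := mv_card σ
      have h5 : ((σ.support.card * (m - 2) : ℕ) : ℝ) ≤ ((2 * (mv σ).card : ℕ) : ℝ) := by exact_mod_cast h4
      push_cast [Nat.cast_sub (by omega : 2 ≤ m)] at h5
      have h6 : (k0 : ℝ) ≤ σ.support.card := by exact_mod_cast hσ.2.le
      have h7 : (k0 : ℝ) * ((m : ℝ) - 2) ≤ σ.support.card * ((m : ℝ) - 2) := by
        apply mul_le_mul_of_nonneg_right h6; linarith
      have h8 : p * (k0 * ((m : ℝ) - 2)) ≤ p * (2 * (mv σ).card) := by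
        apply mul_le_mul_of_nonneg_left (by linarith) h0.le
      -- multiply by L
      have h9 : (m * L + 4) * L ≤ (p * (mv σ).card / 2) * L := by
        have k1 : p * (68 * m) * ((m : ℝ) - 2) ≤ p * (k0 * L) * ((m : ℝ) - 2) := by
          have : 0 ≤ (m : ℝ) - 2 := by linarith
          gcongr
        have k2 : Real.sqrt m * ((m : ℝ) - 2) ≤ p * m * ((m : ℝ) - 2) := by
          apply mul_le_mul_of_nonneg_right hpm; linarith
        have k3 : (p * (mv σ).card / 2) * L * 4 ≥ 68 * (Real.sqrt m * ((m : ℝ) - 2)) := by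
          have := mul_le_mul_of_nonneg_right h8 (by linarith : (0:ℝ) ≤ L)
          linarith
        have k4 : (m * L + 4) * L ≤ 5 * m * Real.sqrt m := by
          have : m * L ^ 2 ≤ m * Real.sqrt m := by gcongr
          have k5 : 4 * L ≤ 4 * L ^ 2 := by nlinarith
          have k6 : Real.sqrt m ≤ m * Real.sqrt m := by nlinarith
          nlinarith
        have k7 : 17 * (Real.sqrt m * ((m : ℝ) - 2)) ≥ 5 * m * Real.sqrt m := by
          have : 0 ≤ Real.sqrt m * (12 * m - 34) := by
            apply mul_nonneg hs0.le; linarith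
          linarith
        linarith
      have := le_of_mul_le_mul_right h9 (by linarith : (0:ℝ) < L)
      linarith
    refine (Finset.sum_le_sum h3).trans ?_
    rw [Finset.sum_const, nsmul_eq_mul]
    calc (Big.card : ℝ) * Real.exp (-(m * L) - 4) ≤ Real.exp (m * L) * Real.exp (-(m * L) - 4) := by gcongr
      _ = Real.exp (-4) := by rw [← Real.exp_add]; congr 1; ring
      _ ≤ 1 / 16 := by linarith

end Pool.Agent.V113.Rec
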