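import Pool.Agent.V113.Rec.Gr

set_option autoImplicit false
open Finset

namespace Pool.Agent.V113.Rec

variable {n m : ℕ}

/-- swapping an isolated vertex with an outside vertex that has no neighbour inside -/
lemma good_imp (G : SimpleGraph (Fin n)) (φ : Fin m ↪ Fin n) (i : Fin m) (y : Fin n)
    (hy : y ∉ univ.map φ) (hi : ∀ j, ¬ G.Adj (φ i) (φ j)) (hyj : ∀ j, ¬ G.Adj y (φ j)) :
    ∃ φ' : Fin m ↪ Fin n, G.comap φ' = G.comap φ ∧ univ.map φ' ≠ univ.map φ := by
  have hy' : ∀ j, φ j ≠ y := fun j h => hy (by rw [← h]; exact mem_map_of_mem _ (mem_univ j))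
  have hinj : Function.Injective (Function.update φ i y) := by
    intro a b hab
    by_cases ha : a = i
    · by_cases hb : b = i
      · rw [ha, hb]
      · subst ha
        rw [Function.update_self, Function.update_of_ne hb] at hab
        exact absurd hab.symm (hy' b)
    · by_cases hb : b = i
      · subst hb
        rw [Function.update_self, Function.update_of_ne ha] at hab
        exact absurd hab (hy' a)
      · rw [Function.update_of_ne ha, Function.update_of_ne hb] at hab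
        exact φ.injective hab
  refine ⟨⟨Function.update φ i y, hinj⟩, ?_, ?_⟩
  · ext a b
    show G.Adj (Function.update φ i y a) (Function.update φ i y b) ↔ G.Adj (φ a) (φ b)
    by_cases ha : a = i
    · by_cases hb : b = i
      · subst ha; subst hb; simp
      · subst ha
        rw [Function.update_self, Function.update_of_ne hb]
        constructor
        · intro h; exact absurd h (hyj b)
        · intro h; exact absurd h (hi b)
    · by_cases hb : b = i
      · subst hb
        rw [Function.update_self, Function.update_of_ne ha]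
        constructor
        · intro h; exact absurd h.symm (hyj a)
        · intro h; exact absurd h.symm (hi a)
      · rw [Function.update_of_ne ha, Function.update_of_ne hb]
  · intro h
    apply hy
    rw [← h, mem_map]
    exact ⟨i, mem_univ i, by simp⟩

/-- the edges that must be absent -/
def dIn (φ : Fin m ↪ Fin n) (i : Fin m) : Finset (Sym2 (Fin n)) :=
  (univ.erase i).image fun j => s(φ i, φ j)

def dOut (φ : Fin m ↪ Fin n) (y : Fin n) : Finset (Sym2 (Fin n)) :=
  univ.image fun j => s(y, φ j)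

lemma dIn_card (φ : Fin m ↪ Fin n) (i : Fin m) : (dIn φ i).card = m - 1 := by
  unfold dIn
  rw [card_image_of_injective, card_erase_of_mem (mem_univ _), card_univ, Fintype.card_fin]
  intro a b h
  rw [Sym2.eq_iff] at h
  rcases h with ⟨_, h⟩ | ⟨h1, h2⟩
  · exact φ.injective h
  · exact φ.injective (h2.trans h1)

lemma dIn_inter (φ : Fin m ↪ Fin n) {i j : Fin m} (h : i ≠ j) :
    dIn φ i ∩ dIn φ j ⊆ {s(φ i, φ j)} := by
  intro e he
  rw [mem_inter] at he
  obtain ⟨h1, h2⟩ := he
  unfold dIn at h1 h2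
  rw [mem_image] at h1 h2
  obtain ⟨a, ha, rfl⟩ := h1
  obtain ⟨b, hb, hb2⟩ := h2
  rw [mem_singleton]
  rw [Sym2.eq_iff] at hb2
  rcases hb2 with ⟨h3, _⟩ | ⟨h3, _⟩
  · exact absurd (φ.injective h3).symm h
  · rw [h3]

lemma dIn_union (φ : Fin m ↪ Fin n) (i j : Fin m) :
    (if i = j then m - 1 else 2 * m - 3) ≤ (dIn φ i ∪ dIn φ j).card := by
  split_ifs with h
  · subst h
    rw [union_self, dIn_card]
  · have h1 := card_union_add_card_inter (dIn φ i) (dIn φ j)
    have h2 := card_le_card (dIn_inter φ h)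
    rw [card_singleton] at h2
    rw [dIn_card, dIn_card] at h1
    omega

lemma dOut_card (φ : Fin m ↪ Fin n) (y : Fin n) (hy : y ∉ univ.map φ) : (dOut φ y).card = m := by
  unfold dOut
  rw [card_image_of_injective, card_univ, Fintype.card_fin]
  intro a b h
  rw [Sym2.eq_iff] at h
  rcases h with ⟨_, h⟩ | ⟨h1, _⟩
  · exact φ.injective h
  · exact absurd (by rw [h1]; exact mem_map_of_mem _ (mem_univ b)) hy

lemma dOut_card_le (φ : Fin m ↪ Fin n) (y : Fin n) : (dOut φ y).card ≤ m := by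
  unfold dOut
  refine card_image_le.trans ?_
  simp

lemma dOut_union (φ : Fin m ↪ Fin n) (y z : Fin n) (hy : y ∉ univ.map φ) (hz : z ∉ univ.map φ) :
    (if y = z then m else 2 * m) ≤ (dOut φ y ∪ dOut φ z).card := by
  split_ifs with h
  · subst h
    rw [union_self, dOut_card _ _ hy]
  · rw [card_union_of_disjoint, dOut_card _ _ hy, dOut_card _ _ hz]
    · omega
    · rw [Finset.disjoint_left]
      intro e h1 h2
      unfold dOut at h1 h2
      rw [mem_image] at h1 h2
      obtain ⟨a, _, rfl⟩ := h1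
      obtain ⟨b, _, hb⟩ := h2
      rw [Sym2.eq_iff] at hb
      rcases hb with ⟨h3, _⟩ | ⟨h3, _⟩
      · exact h h3.symm
      · exact hz (by rw [h3]; exact mem_map_of_mem _ (mem_univ a))

lemma dIn_dOut (φ : Fin m ↪ Fin n) (i : Fin m) (y : Fin n) (hy : y ∉ univ.map φ) :
    Disjoint (dIn φ i) (dOut φ y) := by
  rw [Finset.disjoint_left]
  intro e h1 h2
  unfold dIn at h1
  unfold dOut at h2
  rw [mem_image] at h1 h2
  obtain ⟨a, _, rfl⟩ := h1
  obtain ⟨b, _, hb⟩ := h2
  rw [Sym2.eq_iff] at hb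
  rcases hb with ⟨h3, _⟩ | ⟨h3, _⟩
  · exact hy (by rw [h3]; exact mem_map_of_mem _ (mem_univ i))
  · exact hy (by rw [h3]; exact mem_map_of_mem _ (mem_univ a))

lemma union_lo (φ : Fin m ↪ Fin n) (i j : Fin m) (y z : Fin n) (hy : y ∉ univ.map φ) (hz : z ∉ univ.map φ) :
    (if i = j then m - 1 else 2 * m - 3) + (if y = z then m else 2 * m)
      ≤ ((dIn φ i ∪ dOut φ y) ∪ (dIn φ j ∪ dOut φ z)).card := by
  have h1 : (dIn φ i ∪ dOut φ y) ∪ (dIn φ j ∪ dOut φ z) = (dIn φ i ∪ dIn φ j) ∪ (dOut φ y ∪ dOut φ z) := by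
    ext e; simp only [mem_union]; tauto
  rw [h1, card_union_of_disjoint]
  · exact add_le_add (dIn_union φ i j) (dOut_union φ y z hy hz)
  · rw [disjoint_union_left, disjoint_union_right, disjoint_union_right]
    exact ⟨⟨dIn_dOut φ i y hy, dIn_dOut φ i z hz⟩, dIn_dOut φ j y hy, dIn_dOut φ j z hz⟩

lemma union_hi (φ : Fin m ↪ Fin n) (i : Fin m) (y : Fin n) :
    (dIn φ i ∪ dOut φ y).card ≤ (m - 1) + m := by
  refine (card_union_le _ _).trans ?_
  rw [dIn_card]
  have := dOut_card_le φ y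
  omega

lemma nd (φ : Fin m ↪ Fin n) (i : Fin m) (y : Fin n) (hy : y ∉ univ.map φ) :
    ∀ e ∈ dIn φ i ∪ dOut φ y, ¬ e.IsDiag := by
  intro e he
  rw [mem_union] at he
  rcases he with he | he
  · unfold dIn at he
    rw [mem_image] at he
    obtain ⟨a, ha, rfl⟩ := he
    rw [mem_erase] at ha
    rw [Sym2.mk_isDiag_iff]
    intro h
    exact ha.1 (φ.injective h).symm
  · unfold dOut at he
    rw [mem_image] at he
    obtain ⟨a, _, rfl⟩ := he
    rw [Sym2.mk_isDiag_iff]
    intro h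
    exact hy (by rw [h]; exact mem_map_of_mem _ (mem_univ a))

/-- all edges of `D` absent -/
def Abs (D : Finset (Sym2 (Fin n))) (ω : E n → Bool) : Prop :=
  ∀ e : E n, e.1 ∈ D → ω e = false

lemma abs_imp (φ : Fin m ↪ Fin n) (i : Fin m) (y : Fin n) (hy : y ∉ univ.map φ) (ω : E n → Bool)
    (h : Abs (dIn φ i ∪ dOut φ y) ω) :
    ∃ φ' : Fin m ↪ Fin n, (gr ω).comap φ' = (gr ω).comap φ ∧ univ.map φ' ≠ univ.map φ := by
  apply good_imp (gr ω) φ i y hy
  · intro j hadj
    have hij : φ i ≠ φ j := hadj.ne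
    have hd : ¬ (s(φ i, φ j) : Sym2 (Fin n)).IsDiag := by rwa [Sym2.mk_isDiag_iff]
    rw [gr_adj _ _ _ hd] at hadj
    have h1 := h ⟨s(φ i, φ j), hd⟩ (by
      rw [mem_union]
      left
      unfold dIn
      rw [mem_image]
      exact ⟨j, by rw [mem_erase]; exact ⟨fun hh => hij (by rw [hh]), mem_univ j⟩, rfl⟩)
    rw [h1] at hadj
    exact absurd hadj (by decide)
  · intro j hadj
    have hij : y ≠ φ j := hadj.ne
    have hd : ¬ (s(y, φ j) : Sym2 (Fin n)).IsDiag := by rwa [Sym2.mk_isDiag_iff]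
    rw [gr_adj _ _ _ hd] at hadj
    have h1 := h ⟨s(y, φ j), hd⟩ (by
      rw [mem_union]
      right
      unfold dOut
      rw [mem_image]
      exact ⟨j, mem_univ j, rfl⟩)
    rw [h1] at hadj
    exact absurd hadj (by decide)

open Classical in
lemma abs_prob (p : ℝ) (D : Finset (Sym2 (Fin n))) (hD : ∀ e ∈ D, ¬ e.IsDiag) :
    ∑ ω : E n → Bool, W p ω * (if Abs D ω then 1 else 0) = (1 - p) ^ D.card := by
  have h := const_prob p (D.subtype (fun e : Sym2 (Fin n) => ¬ e.IsDiag)) false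
  have hc : (D.subtype (fun e : Sym2 (Fin n) => ¬ e.IsDiag)).card = D.card := by
    rw [Finset.card_subtype, Finset.filter_true_of_mem hD]
  rw [hc] at h
  have hw : wt p false = 1 - p := by simp [wt]
  rw [hw] at h
  rw [← h]
  refine Finset.sum_congr rfl fun ω _ => ?_
  congr 1
  have hiff : Abs D ω ↔ ∀ e ∈ D.subtype (fun e : Sym2 (Fin n) => ¬ e.IsDiag), ω e = false := by
    unfold Abs
    constructor
    · intro h e he; exact h e (by rwa [mem_subtype] at he)
    · intro h e he; exact h e (by rwa [mem_subtype])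
  simp only [hiff]

lemma abs_and (D D' : Finset (Sym2 (Fin n))) (ω : E n → Bool) :
    (Abs D ω ∧ Abs D' ω) ↔ Abs (D ∪ D') ω := by
  unfold Abs
  constructor
  · rintro ⟨h1, h2⟩ e he
    rw [mem_union] at he
    rcases he with he | he
    · exact h1 e he
    · exact h2 e he
  · intro h
    exact ⟨fun e he => h e (mem_union_left _ he), fun e he => h e (mem_union_right _ he)⟩

open Classical in
/-- second moment method -/
lemma second_moment {α I : Type*} [Fintype α] (Wt : α → ℝ) (hW : ∀ a, 0 ≤ Wt a) (s : Finset I)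
    (A : I → α → Prop) (μ R : ℝ) (hμ : 0 < μ) (hR : 0 < R)
    (h1 : μ ≤ ∑ i ∈ s, ∑ a, Wt a * (if A i a then 1 else 0))
    (h2 : ∑ i ∈ s, ∑ j ∈ s, ∑ a, Wt a * (if A i a ∧ A j a then 1 else 0) ≤ μ ^ 2 * R) :
    1 / R ≤ ∑ a, Wt a * (if ∃ i ∈ s, A i a then 1 else 0) := by
  set lam : ℝ := 1 / (μ * R) with hlam
  set X : α → ℝ := fun a => ∑ i ∈ s, (if A i a then (1 : ℝ) else 0) with hX
  have hpt : ∀ a, 2 * lam * X a - lam ^ 2 * (X a) ^ 2 ≤ (if ∃ i ∈ s, A i a then (1 : ℝ) else 0) := by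
    intro a
    split_ifs with h
    · nlinarith [sq_nonneg (1 - lam * X a)]
    · have : X a = 0 := by
        simp only [hX]
        apply Finset.sum_eq_zero
        intro i hi
        rw [if_neg]
        intro hA
        exact h ⟨i, hi, hA⟩
      rw [this]; simp
  have hsum : ∑ a, Wt a * (2 * lam * X a - lam ^ 2 * (X a) ^ 2)
      ≤ ∑ a, Wt a * (if ∃ i ∈ s, A i a then (1 : ℝ) else 0) :=
    Finset.sum_le_sum fun a _ => mul_le_mul_of_nonneg_left (hpt a) (hW a)
  refine le_trans ?_ hsum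
  have e1 : ∑ a, Wt a * X a = ∑ i ∈ s, ∑ a, Wt a * (if A i a then 1 else 0) := by
    rw [Finset.sum_comm]
    refine Finset.sum_congr rfl fun a _ => ?_
    rw [← Finset.mul_sum]
  have e2 : ∑ a, Wt a * (X a) ^ 2 = ∑ i ∈ s, ∑ j ∈ s, ∑ a, Wt a * (if A i a ∧ A j a then 1 else 0) := by
    have : ∀ a, Wt a * (X a) ^ 2 = ∑ i ∈ s, ∑ j ∈ s, Wt a * (if A i a ∧ A j a then 1 else 0) := by
      intro a
      rw [sq, hX, Finset.sum_mul_sum, Finset.mul_sum]
      refine Finset.sum_congr rfl fun i _ => ?_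
      rw [Finset.mul_sum]
      refine Finset.sum_congr rfl fun j _ => ?_
      congr 1
      by_cases hi : A i a <;> by_cases hj : A j a <;> simp [hi, hj]
    rw [Finset.sum_congr rfl fun a _ => this a, Finset.sum_comm]
    refine Finset.sum_congr rfl fun i _ => ?_
    rw [Finset.sum_comm]
  have e3 : ∑ a, Wt a * (2 * lam * X a - lam ^ 2 * (X a) ^ 2)
      = 2 * lam * (∑ a, Wt a * X a) - lam ^ 2 * (∑ a, Wt a * (X a) ^ 2) := by
    rw [Finset.mul_sum, Finset.mul_sum, ← Finset.sum_sub_distrib]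
    refine Finset.sum_congr rfl fun a _ => ?_
    ring
  rw [e3, e1, e2]
  have hl : 0 < lam := by positivity
  have k1 : 2 * lam * μ ≤ 2 * lam * ∑ i ∈ s, ∑ a, Wt a * (if A i a then 1 else 0) := by gcongr
  have k2 : lam ^ 2 * ∑ i ∈ s, ∑ j ∈ s, ∑ a, Wt a * (if A i a ∧ A j a then 1 else 0) ≤ lam ^ 2 * (μ ^ 2 * R) := by
    gcongr
  have k3 : 2 * lam * μ - lam ^ 2 * (μ ^ 2 * R) = 1 / R := by
    rw [hlam]; field_simp; ring
  linarith

end Pool.Agent.V113.Rec
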