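import Pool.Agent.V113.Rec.Case1

set_option autoImplicit false
open Finset

namespace Pool.Agent.V113.Rec

variable {n m : ℕ}

lemma dsum {I : Type*} [DecidableEq I] (s : Finset I) (q : ℝ) (hq : 0 ≤ q) (a b : ℕ) :
    ∑ i ∈ s, ∑ j ∈ s, q ^ (if i = j then a else b) ≤ s.card * q ^ a + (s.card : ℝ) ^ 2 * q ^ b := by
  have h : ∀ i ∈ s, ∑ j ∈ s, q ^ (if i = j then a else b) ≤ q ^ a + s.card * q ^ b := by
    intro i hi
    calc ∑ j ∈ s, q ^ (if i = j then a else b)
        ≤ ∑ j ∈ s, ((if i = j then q ^ a else 0) + q ^ b) := by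
          apply Finset.sum_le_sum
          intro j _
          split_ifs
          · have := pow_nonneg hq b; linarith
          · simp
      _ = q ^ a + s.card * q ^ b := by
          rw [Finset.sum_add_distrib, Finset.sum_ite_eq, if_pos hi, Finset.sum_const, nsmul_eq_mul]
  calc ∑ i ∈ s, ∑ j ∈ s, q ^ (if i = j then a else b)
      ≤ ∑ i ∈ s, (q ^ a + s.card * q ^ b) := Finset.sum_le_sum h
    _ = _ := by rw [Finset.sum_const, nsmul_eq_mul]; ring

open Classical in
lemma good_prob (p : ℝ) (h0 : 0 ≤ p) (h1 : p ≤ 1 / 2) (hm : 1 ≤ m) (hmn : m < n) (φ : Fin m ↪ Fin n) :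
    1 / ((1 / (m * (1 - p) ^ m) + 2) * (1 / (((n - m : ℕ) : ℝ) * (1 - p) ^ m) + 1))
      ≤ ∑ ω : E n → Bool, W p ω * (if ∃ φ' : Fin m ↪ Fin n,
        (gr ω).comap φ' = (gr ω).comap φ ∧ univ.map φ' ≠ univ.map φ then 1 else 0) := by
  set q := 1 - p with hq
  have hq0 : 0 < q := by linarith
  have hq1 : q ≤ 1 := by linarith
  have hq2 : 1 ≤ 2 * q := by linarith
  have hmr : (1 : ℝ) ≤ m := by exact_mod_cast hm
  have hN1 : 1 ≤ n - m := by omega
  have hNr : (1 : ℝ) ≤ ((n - m : ℕ) : ℝ) := by exact_mod_cast hN1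
  set N : ℝ := ((n - m : ℕ) : ℝ) with hN
  set T : Finset (Fin n) := univ.filter (fun y => y ∉ univ.map φ) with hT
  have hTc : (T.card : ℝ) = N := by
    rw [hN]
    congr 1
    have : T = univ \ univ.map φ := by ext y; simp [hT]
    rw [this, card_sdiff_of_subset (subset_univ _), card_univ, card_map, card_univ, Fintype.card_fin,
      Fintype.card_fin]
  set R : ℝ := (1 / (m * q ^ m) + 2) * (1 / (N * q ^ m) + 1) with hR
  have hqm : 0 < q ^ m := pow_pos hq0 m
  have hRpos : 0 < R := by positivity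
  set μ : ℝ := (m * q ^ (m - 1)) * (N * q ^ m) with hμ
  have hμpos : 0 < μ := by positivity
  have hsm := second_moment (fun ω : E n → Bool => W p ω) (fun ω => W_nonneg h0 (by linarith) ω)
    ((univ : Finset (Fin m)) ×ˢ T) (fun x ω => Abs (dIn φ x.1 ∪ dOut φ x.2) ω) μ R hμpos hRpos ?_ ?_
  · refine hsm.trans ?_
    apply Finset.sum_le_sum
    intro ω _
    apply mul_le_mul_of_nonneg_left _ (W_nonneg h0 (by linarith) ω)
    split_ifs with ha hb hb
    · exact le_rfl
    · exfalso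
      obtain ⟨⟨i, y⟩, hx, hA⟩ := ha
      rw [mem_product] at hx
      have hy : y ∉ univ.map φ := by
        have := hx.2
        simp only [hT, mem_filter, mem_univ, true_and] at this
        exact this
      exact hb (abs_imp φ i y hy ω hA)
    · exact zero_le_one
    · exact le_rfl
  · have hterm : ∀ x ∈ (univ : Finset (Fin m)) ×ˢ T, q ^ ((m - 1) + m)
        ≤ ∑ ω : E n → Bool, W p ω * (if Abs (dIn φ x.1 ∪ dOut φ x.2) ω then 1 else 0) := by
      intro x hx
      rw [mem_product] at hx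
      have hy : x.2 ∉ univ.map φ := by
        have := hx.2
        simp only [hT, mem_filter, mem_univ, true_and] at this
        exact this
      rw [abs_prob p _ (nd φ x.1 x.2 hy)]
      exact pow_le_pow_of_le_one hq0.le hq1 (union_hi φ x.1 x.2)
    refine le_trans ?_ (Finset.sum_le_sum hterm)
    rw [Finset.sum_const, card_product, card_univ, Fintype.card_fin, nsmul_eq_mul]
    push_cast
    rw [hTc, hμ, pow_add]
    apply le_of_eq
    ring
  · have hterm : ∀ x ∈ (univ : Finset (Fin m)) ×ˢ T, ∀ y ∈ (univ : Finset (Fin m)) ×ˢ T,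
        ∑ ω : E n → Bool, W p ω * (if Abs (dIn φ x.1 ∪ dOut φ x.2) ω ∧ Abs (dIn φ y.1 ∪ dOut φ y.2) ω then 1 else 0)
        ≤ q ^ (if x.1 = y.1 then m - 1 else 2 * m - 3) * q ^ (if x.2 = y.2 then m else 2 * m) := by
      intro x hx y hy
      rw [mem_product] at hx hy
      have hx2 : x.2 ∉ univ.map φ := by
        have := hx.2
        simp only [hT, mem_filter, mem_univ, true_and] at this
        exact this
      have hy2 : y.2 ∉ univ.map φ := by
        have := hy.2
        simp only [hT, mem_filter, mem_univ, true_and] at this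
        exact this
      simp only [abs_and]
      rw [abs_prob p _ (by
        intro e he
        rw [mem_union] at he
        rcases he with he | he
        · exact nd φ x.1 x.2 hx2 e he
        · exact nd φ y.1 y.2 hy2 e he), ← pow_add]
      exact pow_le_pow_of_le_one hq0.le hq1 (union_lo φ x.1 y.1 x.2 y.2 hx2 hy2)
    refine (Finset.sum_le_sum fun x hx => Finset.sum_le_sum fun y hy => hterm x hx y hy).trans ?_
    have hprod : ∑ x ∈ (univ : Finset (Fin m)) ×ˢ T, ∑ y ∈ (univ : Finset (Fin m)) ×ˢ T,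
        q ^ (if x.1 = y.1 then m - 1 else 2 * m - 3) * q ^ (if x.2 = y.2 then m else 2 * m)
        = (∑ i : Fin m, ∑ j : Fin m, q ^ (if i = j then m - 1 else 2 * m - 3))
          * (∑ y ∈ T, ∑ z ∈ T, q ^ (if y = z then m else 2 * m)) := by
      rw [Finset.sum_product]
      simp only [Finset.sum_product]
      rw [Finset.sum_mul_sum]
      refine Finset.sum_congr rfl fun i _ => Finset.sum_congr rfl fun y _ => ?_
      rw [Finset.sum_mul_sum]
    rw [hprod]
    have k1 := dsum (univ : Finset (Fin m)) q hq0.le (m - 1) (2 * m - 3)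
    have k2 := dsum T q hq0.le m (2 * m)
    rw [card_univ, Fintype.card_fin] at k1
    rw [hTc] at k2
    have k1' : (m : ℝ) * q ^ (m - 1) + (m : ℝ) ^ 2 * q ^ (2 * m - 3)
        ≤ (m * q ^ (m - 1)) ^ 2 * (1 / (m * q ^ m) + 2) := by
      have e1 : (m : ℝ) * q ^ (m - 1) ≤ (m * q ^ (m - 1)) ^ 2 * (1 / (m * q ^ m)) := by
        rw [mul_one_div, le_div_iff₀ (by positivity)]
        have : q ^ m ≤ q ^ (m - 1) := pow_le_pow_of_le_one hq0.le hq1 (by omega)
        calc (m : ℝ) * q ^ (m - 1) * (m * q ^ m) ≤ (m : ℝ) * q ^ (m - 1) * (m * q ^ (m - 1)) := by gcongr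
          _ = _ := by ring
      have e2 : (m : ℝ) ^ 2 * q ^ (2 * m - 3) ≤ (m * q ^ (m - 1)) ^ 2 * 2 := by
        have h3 : q ^ (2 * m - 3) ≤ 2 * (q ^ (m - 1)) ^ 2 := by
          rw [← pow_mul]
          rcases Nat.lt_or_ge m 2 with h | h
          · have : m = 1 := by omega
            subst this; norm_num
          · have h4 : (m - 1) * 2 = (2 * m - 3) + 1 := by omega
            rw [h4, pow_succ]
            have := pow_pos hq0 (2 * m - 3)
            nlinarith
        calc (m : ℝ) ^ 2 * q ^ (2 * m - 3) ≤ (m : ℝ) ^ 2 * (2 * (q ^ (m - 1)) ^ 2) := by gcongr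
          _ = _ := by ring
      rw [mul_add]
      linarith
    have k2' : N * q ^ m + N ^ 2 * q ^ (2 * m) ≤ (N * q ^ m) ^ 2 * (1 / (N * q ^ m) + 1) := by
      apply le_of_eq
      have : N * q ^ m ≠ 0 := by positivity
      field_simp
      ring
    calc _ ≤ ((m : ℝ) * q ^ (m - 1) + (m : ℝ) ^ 2 * q ^ (2 * m - 3)) * (N * q ^ m + N ^ 2 * q ^ (2 * m)) := by
          apply mul_le_mul k1 k2
          · exact Finset.sum_nonneg fun _ _ => Finset.sum_nonneg fun _ _ => pow_nonneg hq0.le _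
          · positivity
      _ ≤ ((m * q ^ (m - 1)) ^ 2 * (1 / (m * q ^ m) + 2)) * ((N * q ^ m) ^ 2 * (1 / (N * q ^ m) + 1)) := by
          apply mul_le_mul k1' k2'
          · positivity
          · positivity
      _ = μ ^ 2 * R := by rw [hμ, hR]; ring

section
variable (est : SimpleGraph (Fin n) → SimpleGraph (Fin m) → PMF (Finset (Fin n)))

lemma est_nonneg (G : SimpleGraph (Fin n)) (H : SimpleGraph (Fin m)) (S : Finset (Fin n)) :
    0 ≤ (est G H S).toReal := ENNReal.toReal_nonneg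

lemma est_sum (G : SimpleGraph (Fin n)) (H : SimpleGraph (Fin m)) :
    ∑ S, (est G H S).toReal ≤ 1 := by
  rw [← ENNReal.toReal_sum (fun S _ => (est G H).apply_ne_top S)]
  have h := (est G H).tsum_coe
  rw [tsum_fintype] at h
  rw [h]; simp

lemma card_emb_pos (hmn : m ≤ n) : (0 : ℝ) < Fintype.card (Fin m ↪ Fin n) := by
  rw [Fintype.card_embedding_eq, Fintype.card_fin, Fintype.card_fin]
  exact_mod_cast Nat.descFactorial_pos.mpr hmn

lemma er_nonneg (p : ℝ) (h0 : 0 ≤ p) (h1 : p ≤ 1) (G : SimpleGraph (Fin n)) : 0 ≤ erWeight p G := by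
  unfold erWeight
  have : 0 ≤ 1 - p := by linarith
  positivity

lemma er_sum (p : ℝ) : ∑ G : SimpleGraph (Fin n), erWeight p G = 1 := by
  have := sum_graphs (n := n) p (fun _ => 1)
  simp only [mul_one] at this
  rw [this, W_sum]

theorem case1 (p : ℝ) (h0 : 0 ≤ p) (h1 : p ≤ 1 / 2) (hm : 1 ≤ m) (hmn : m < n) :
    successProb n m p est ≤ 1 - 1 / 2 *
      (1 / ((1 / (m * (1 - p) ^ m) + 2) * (1 / (((n - m : ℕ) : ℝ) * (1 - p) ^ m) + 1))) := by
  classical
  set r : ℝ := 1 / ((1 / (m * (1 - p) ^ m) + 2) * (1 / (((n - m : ℕ) : ℝ) * (1 - p) ^ m) + 1)) with hr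
  have hc := card_emb_pos (m := m) (n := n) hmn.le
  set K : ℝ := ((Fintype.card (Fin m ↪ Fin n) : ℕ) : ℝ) with hK
  unfold successProb
  have hb : ∀ G : SimpleGraph (Fin n), erWeight p G *
      ((∑ φ : Fin m ↪ Fin n, (est G (G.comap φ) (univ.map φ)).toReal) / K)
      ≤ erWeight p G - 1 / 2 * (∑ φ : Fin m ↪ Fin n, erWeight p G * (if ∃ φ' : Fin m ↪ Fin n,
        G.comap φ' = G.comap φ ∧ univ.map φ' ≠ univ.map φ then 1 else 0)) / K := by
    intro G
    have h := half_lemma G (fun H S => (est G H S).toReal) (fun H S => est_nonneg est G H S)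
      (fun H => est_sum est G H)
    rw [← Finset.mul_sum, Finset.sum_boole]
    have h2 : (∑ φ : Fin m ↪ Fin n, (est G (G.comap φ) (univ.map φ)).toReal) / K
        ≤ (K - 1 / 2 * (univ.filter fun φ : Fin m ↪ Fin n => ∃ φ' : Fin m ↪ Fin n,
          G.comap φ' = G.comap φ ∧ univ.map φ' ≠ univ.map φ).card) / K := by gcongr
    calc _ ≤ erWeight p G * ((K - 1 / 2 * (univ.filter fun φ : Fin m ↪ Fin n => ∃ φ' : Fin m ↪ Fin n,
          G.comap φ' = G.comap φ ∧ univ.map φ' ≠ univ.map φ).card) / K) :=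
          mul_le_mul_of_nonneg_left h2 (er_nonneg p h0 (by linarith) G)
      _ = _ := by field_simp
  refine (Finset.sum_le_sum fun G _ => hb G).trans ?_
  rw [Finset.sum_sub_distrib, er_sum, ← Finset.sum_div, ← Finset.mul_sum, Finset.sum_comm]
  have hφ : ∀ φ ∈ (univ : Finset (Fin m ↪ Fin n)), r ≤ ∑ G : SimpleGraph (Fin n), erWeight p G *
      (if ∃ φ' : Fin m ↪ Fin n, G.comap φ' = G.comap φ ∧ univ.map φ' ≠ univ.map φ then (1 : ℝ) else 0) := by
    intro φ _
    rw [sum_graphs p (fun G => if ∃ φ' : Fin m ↪ Fin n,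
      G.comap φ' = G.comap φ ∧ univ.map φ' ≠ univ.map φ then (1 : ℝ) else 0)]
    exact good_prob p h0 h1 hm hmn φ
  have hs := Finset.sum_le_sum hφ
  rw [Finset.sum_const, card_univ, nsmul_eq_mul, ← hK] at hs
  have : 1 / 2 * r ≤ 1 / 2 * (∑ φ : Fin m ↪ Fin n, ∑ G : SimpleGraph (Fin n), erWeight p G *
      (if ∃ φ' : Fin m ↪ Fin n, G.comap φ' = G.comap φ ∧ univ.map φ' ≠ univ.map φ then (1 : ℝ) else 0)) / K := by
    rw [le_div_iff₀ hc]
    linarith
  linarith

end

end Pool.Agent.V113.Rec
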