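import Pool.Agent.V113.Rec.Case1b

set_option autoImplicit false
open Finset

namespace Pool.Agent.V113.Rec

variable {n m : ℕ}

open Classical in
theorem case2_red (est : SimpleGraph (Fin n) → SimpleGraph (Fin m) → PMF (Finset (Fin n)))
    (p : ℝ) (h0 : 0 ≤ p) (h1 : p ≤ 1) (hmn : m < n) (L A : ℝ) (hA : 0 ≤ A) :
    successProb n m p est ≤ ∑ η : E m → Bool, W p η * (if W p η < Real.exp (-L) then 1 else 0)
      + ∑ η : E m → Bool, W p η * (if A < ((autG (gr η)).card : ℝ) then 1 else 0)
      + Real.exp L * A / (Fintype.card (Fin m ↪ Fin n) : ℝ) := by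
  have hc := card_emb_pos (m := m) (n := n) hmn.le
  set K : ℝ := ((Fintype.card (Fin m ↪ Fin n) : ℕ) : ℝ) with hK
  set T : Finset (SimpleGraph (Fin m)) :=
    (univ.filter fun η : E m → Bool => Real.exp (-L) ≤ W p η ∧ ((autG (gr η)).card : ℝ) ≤ A).image gr with hT
  have hTA : ∀ H ∈ T, ((autG H).card : ℝ) ≤ A := by
    intro H hH
    rw [hT, mem_image] at hH
    obtain ⟨η, hη, rfl⟩ := hH
    simp only [mem_filter, mem_univ, true_and] at hη
    exact hη.2
  have hTc : (T.card : ℝ) ≤ Real.exp L := by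
    have h2 : (T.card : ℝ) ≤ ((univ.filter fun η : E m → Bool => Real.exp (-L) ≤ W p η ∧ ((autG (gr η)).card : ℝ) ≤ A).card : ℝ) := by
      exact_mod_cast card_image_le
    refine h2.trans ?_
    set F := univ.filter fun η : E m → Bool => Real.exp (-L) ≤ W p η ∧ ((autG (gr η)).card : ℝ) ≤ A with hF
    have h3 : (F.card : ℝ) * Real.exp (-L) ≤ 1 := by
      calc (F.card : ℝ) * Real.exp (-L) = ∑ η ∈ F, Real.exp (-L) := by rw [Finset.sum_const, nsmul_eq_mul]
        _ ≤ ∑ η ∈ F, W p η := by
          apply Finset.sum_le_sum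
          intro η hη
          simp only [hF, mem_filter, mem_univ, true_and] at hη
          exact hη.1
        _ ≤ ∑ η : E m → Bool, W p η :=
          Finset.sum_le_sum_of_subset_of_nonneg (subset_univ _) fun η _ _ => W_nonneg h0 h1 η
        _ = 1 := W_sum p
    rw [Real.exp_neg] at h3
    have h4 := Real.exp_pos L
    have h5 : (F.card : ℝ) / Real.exp L ≤ 1 := by rw [div_eq_mul_inv]; exact h3
    rwa [div_le_one h4] at h5
  have hmem : ∀ η : E m → Bool, gr η ∉ T → W p η < Real.exp (-L) ∨ A < ((autG (gr η)).card : ℝ) := by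
    intro η hη
    by_contra hcon
    push Not at hcon
    apply hη
    rw [hT, mem_image]
    exact ⟨η, by simp only [mem_filter, mem_univ, true_and]; exact hcon, rfl⟩
  unfold successProb
  have hb : ∀ G : SimpleGraph (Fin n), erWeight p G *
      ((∑ φ : Fin m ↪ Fin n, (est G (G.comap φ) (univ.map φ)).toReal) / K)
      ≤ (∑ φ : Fin m ↪ Fin n, erWeight p G * (if G.comap φ ∈ T then 0 else 1)) / K
        + erWeight p G * (Real.exp L * A / K) := by
    intro G
    have h := typical_lemma G (fun H S => (est G H S).toReal) (fun H S => est_nonneg est G H S)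
      (fun H => est_sum est G H) T A hTA
    have h2 : (∑ φ : Fin m ↪ Fin n, (est G (G.comap φ) (univ.map φ)).toReal) / K
        ≤ ((∑ φ : Fin m ↪ Fin n, if G.comap φ ∈ T then (0 : ℝ) else 1) + Real.exp L * A) / K := by
      gcongr
      refine h.trans ?_
      gcongr
    rw [← Finset.mul_sum]
    calc _ ≤ erWeight p G * (((∑ φ : Fin m ↪ Fin n, if G.comap φ ∈ T then (0 : ℝ) else 1) + Real.exp L * A) / K) :=
          mul_le_mul_of_nonneg_left h2 (er_nonneg p h0 h1 G)
      _ = _ := by ring
  refine (Finset.sum_le_sum fun G _ => hb G).trans ?_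
  rw [Finset.sum_add_distrib, ← Finset.sum_mul, er_sum, one_mul, ← Finset.sum_div, Finset.sum_comm]
  gcongr
  have hφ : ∀ φ ∈ (univ : Finset (Fin m ↪ Fin n)), ∑ G : SimpleGraph (Fin n), erWeight p G *
      (if G.comap φ ∈ T then (0 : ℝ) else 1) ≤
      ∑ η : E m → Bool, W p η * (if W p η < Real.exp (-L) then 1 else 0)
      + ∑ η : E m → Bool, W p η * (if A < ((autG (gr η)).card : ℝ) then 1 else 0) := by
    intro φ _
    rw [sum_comap p φ (fun H => if H ∈ T then (0 : ℝ) else 1), ← Finset.sum_add_distrib]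
    apply Finset.sum_le_sum
    intro η _
    rw [← mul_add]
    apply mul_le_mul_of_nonneg_left _ (W_nonneg h0 h1 η)
    split_ifs with a b c c b c c <;> norm_num
    rcases hmem η a with h | h
    · exact absurd h b
    · exact absurd h c
  have hs := Finset.sum_le_sum hφ
  rw [Finset.sum_const, card_univ, nsmul_eq_mul, ← hK] at hs
  rw [div_le_iff₀ hc]
  linarith

/-- centred information -/
noncomputable def xi (p : ℝ) (b : Bool) : ℝ := - Real.log (wt p b) - Real.binEntropy p

lemma xi_mean (p : ℝ) : p * xi p true + (1 - p) * xi p false = 0 := by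
  unfold xi wt
  rw [Real.binEntropy_eq_negMulLog_add_negMulLog_one_sub]
  simp [Real.negMulLog]
  ring

lemma xi_var (p : ℝ) (h0 : 0 < p) (h1 : p ≤ 1 / 2) :
    p * xi p true ^ 2 + (1 - p) * xi p false ^ 2 ≤ 4 := by
  have hq : 0 < 1 - p := by linarith
  have e1 : xi p true = (1 - p) * (Real.log (1 - p) - Real.log p) := by
    unfold xi wt
    rw [Real.binEntropy_eq_negMulLog_add_negMulLog_one_sub]
    simp [Real.negMulLog]
    ring
  have e2 : xi p false = - p * (Real.log (1 - p) - Real.log p) := by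
    unfold xi wt
    rw [Real.binEntropy_eq_negMulLog_add_negMulLog_one_sub]
    simp [Real.negMulLog]
    ring
  rw [e1, e2]
  set l := Real.log (1 - p) - Real.log p with hl
  have hl0 : 0 ≤ l := by
    rw [hl]
    have := Real.log_le_log h0 (by linarith : p ≤ 1 - p)
    linarith
  have hl1 : l ≤ - Real.log p := by
    rw [hl]
    have := Real.log_nonpos hq.le (by linarith)
    linarith
  have hs : 0 < Real.sqrt p := Real.sqrt_pos.mpr h0
  have hl2 : - Real.log p ≤ 2 / Real.sqrt p := by
    have h3 : Real.log p = 2 * Real.log (Real.sqrt p) := by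
      rw [Real.log_sqrt h0.le]; ring
    have h4 : - Real.log (Real.sqrt p) = Real.log (Real.sqrt p)⁻¹ := by rw [Real.log_inv]
    have h5 : Real.log (Real.sqrt p)⁻¹ ≤ (Real.sqrt p)⁻¹ := Real.log_le_self (by positivity)
    calc - Real.log p = 2 * (- Real.log (Real.sqrt p)) := by rw [h3]; ring
      _ ≤ 2 * (Real.sqrt p)⁻¹ := by rw [h4]; gcongr
      _ = _ := by rw [div_eq_mul_inv]
  have hl3 : l ^ 2 ≤ (2 / Real.sqrt p) ^ 2 := by
    have := hl1.trans hl2
    gcongr
  have hl4 : p * l ^ 2 ≤ 4 := by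
    calc p * l ^ 2 ≤ p * (2 / Real.sqrt p) ^ 2 := by gcongr
      _ = 4 := by
        rw [div_pow, Real.sq_sqrt h0.le]; field_simp; norm_num
  have : p * ((1 - p) * l) ^ 2 + (1 - p) * (-p * l) ^ 2 = (1 - p) * (p * l ^ 2) := by ring
  rw [this]
  have h6 : 0 ≤ p * l ^ 2 := by positivity
  nlinarith

section
variable {α : Type*} [Fintype α] [DecidableEq α]

lemma cross (p : ℝ) (x : Bool → ℝ) (hx : p * x true + (1 - p) * x false = 0) (e f : α) (hef : e ≠ f) :
    ∑ η : α → Bool, W p η * (x (η e) * x (η f)) = 0 := by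
  have h : ∀ η : α → Bool, W p η * (x (η e) * x (η f))
      = ∏ b, (wt p (η b) * ((if b = e then x (η b) else 1) * (if b = f then x (η b) else 1))) := by
    intro η
    rw [Finset.prod_mul_distrib, Finset.prod_mul_distrib]
    unfold W
    congr 2
    · rw [Finset.prod_ite_eq' univ e (fun b => x (η b))]; simp
    · rw [Finset.prod_ite_eq' univ f (fun b => x (η b))]; simp
  rw [Finset.sum_congr rfl fun η _ => h η,
    prod_formula (fun b y => wt p y * ((if b = e then x y else 1) * (if b = f then x y else 1)))]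
  apply Finset.prod_eq_zero (mem_univ e)
  simp only [if_true, if_neg hef, mul_one]
  simpa [wt] using hx

lemma diag (p : ℝ) (x : Bool → ℝ) (e : α) :
    ∑ η : α → Bool, W p η * (x (η e) * x (η e)) = p * x true ^ 2 + (1 - p) * x false ^ 2 := by
  have h : ∀ η : α → Bool, W p η * (x (η e) * x (η e))
      = ∏ b, (wt p (η b) * (if b = e then x (η b) * x (η b) else 1)) := by
    intro η
    rw [Finset.prod_mul_distrib]
    unfold W
    congr 1
    rw [Finset.prod_ite_eq' univ e (fun b => x (η b) * x (η b))]; simp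
  rw [Finset.sum_congr rfl fun η _ => h η,
    prod_formula (fun b y => wt p y * (if b = e then x y * x y else 1))]
  rw [Finset.prod_eq_single e]
  · simp [wt]; ring
  · intro b _ hb
    simp [wt, hb]
  · intro h; exact absurd (mem_univ e) h

lemma sq_sum (p : ℝ) (x : Bool → ℝ) (hx : p * x true + (1 - p) * x false = 0) :
    ∑ η : α → Bool, W p η * (∑ e, x (η e)) ^ 2
      = Fintype.card α * (p * x true ^ 2 + (1 - p) * x false ^ 2) := by
  have h : ∀ η : α → Bool, W p η * (∑ e, x (η e)) ^ 2 = ∑ e, ∑ f, W p η * (x (η e) * x (η f)) := by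
    intro η
    rw [sq, Finset.sum_mul_sum, Finset.mul_sum]
    refine Finset.sum_congr rfl fun e _ => ?_
    rw [Finset.mul_sum]
  rw [Finset.sum_congr rfl fun η _ => h η, Finset.sum_comm]
  have h2 : ∀ e : α, ∑ η : α → Bool, ∑ f, W p η * (x (η e) * x (η f)) = p * x true ^ 2 + (1 - p) * x false ^ 2 := by
    intro e
    rw [Finset.sum_comm, Finset.sum_eq_single e]
    · exact diag p x e
    · intro f _ hf
      exact cross p x hx e f (Ne.symm hf)
    · intro h; exact absurd (mem_univ e) h
  rw [Finset.sum_congr rfl fun e _ => h2 e, Finset.sum_const, card_univ, nsmul_eq_mul]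

end

/-- the weight is typically at least `exp (- N h - 8 m)` -/
lemma aep (p : ℝ) (h0 : 0 < p) (h1 : p ≤ 1 / 2) (hm : 1 ≤ m) :
    ∑ η : E m → Bool, W p η * (if W p η < Real.exp (-((m : ℝ) ^ 2 / 2 * Real.binEntropy p + 8 * m)) then 1 else 0)
      ≤ 1 / 32 := by
  have hq : 0 < 1 - p := by linarith
  have hwt : ∀ b, 0 < wt p b := by intro b; cases b <;> simp [wt, hq, h0]
  have hW : ∀ η : E m → Bool, W p η = Real.exp (-(∑ e, xi p (η e) + (Fintype.card (E m) : ℝ) * Real.binEntropy p)) := by
    intro η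
    unfold W xi
    rw [Finset.sum_sub_distrib, Finset.sum_const, card_univ, nsmul_eq_mul, sub_add_cancel,
      Finset.sum_neg_distrib, neg_neg, Real.exp_sum]
    refine Finset.prod_congr rfl fun e _ => ?_
    rw [Real.exp_log (hwt _)]
  have hE : (Fintype.card (E m) : ℝ) ≤ (m : ℝ) ^ 2 / 2 := by
    have h := Sym2.card_subtype_not_diag (α := Fin m)
    have h2 : Fintype.card (E m) = m.choose 2 := by simpa using h
    rw [h2, Nat.cast_choose_two]
    have : (1 : ℝ) ≤ m := by exact_mod_cast hm
    nlinarith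
  have hh : 0 ≤ Real.binEntropy p := Real.binEntropy_nonneg h0.le (by linarith)
  have hmr : (1 : ℝ) ≤ m := by exact_mod_cast hm
  have hpt : ∀ η : E m → Bool, (if W p η < Real.exp (-((m : ℝ) ^ 2 / 2 * Real.binEntropy p + 8 * m)) then (1 : ℝ) else 0)
      ≤ (∑ e, xi p (η e)) ^ 2 / (64 * (m : ℝ) ^ 2) := by
    intro η
    split_ifs with h
    · rw [hW, Real.exp_lt_exp] at h
      have h3 : 8 * (m : ℝ) ≤ ∑ e, xi p (η e) := by
        have : (Fintype.card (E m) : ℝ) * Real.binEntropy p ≤ (m : ℝ) ^ 2 / 2 * Real.binEntropy p := by gcongr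
        linarith
      rw [le_div_iff₀ (by positivity)]
      have : (8 * (m : ℝ)) ^ 2 ≤ (∑ e, xi p (η e)) ^ 2 := by gcongr
      linarith
    · positivity
  calc ∑ η : E m → Bool, W p η * (if W p η < Real.exp (-((m : ℝ) ^ 2 / 2 * Real.binEntropy p + 8 * m)) then 1 else 0)
      ≤ ∑ η : E m → Bool, W p η * ((∑ e, xi p (η e)) ^ 2 / (64 * (m : ℝ) ^ 2)) := by
        apply Finset.sum_le_sum
        intro η _
        exact mul_le_mul_of_nonneg_left (hpt η) (W_nonneg h0.le (by linarith) η)
    _ = (∑ η : E m → Bool, W p η * (∑ e, xi p (η e)) ^ 2) / (64 * (m : ℝ) ^ 2) := by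
        rw [Finset.sum_div]
        refine Finset.sum_congr rfl fun η _ => ?_
        ring
    _ ≤ ((m : ℝ) ^ 2 / 2 * 4) / (64 * (m : ℝ) ^ 2) := by
        rw [sq_sum p (xi p) (xi_mean p)]
        have hv := xi_var p h0 h1
        have hv0 : 0 ≤ p * xi p true ^ 2 + (1 - p) * xi p false ^ 2 := by positivity
        gcongr
    _ = 1 / 32 := by field_simp; norm_num

end Pool.Agent.V113.Rec
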