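import Pool.Agent.V113.Rec.AutB

set_option autoImplicit false
open Finset Filter Topology

namespace Pool.Agent.V113.Rec

variable {n m : ℕ}

lemma one_sub_lo {x : ℝ} (h0 : 0 ≤ x) (h1 : x ≤ 1 / 2) : Real.exp (-(2 * x)) ≤ 1 - x := by
  have h2 := Real.add_one_le_exp (2 * x)
  rw [Real.exp_neg, inv_le_comm₀ (Real.exp_pos _) (by linarith)]
  refine le_trans ?_ h2
  rw [inv_le_iff_one_le_mul₀ (by linarith)]
  nlinarith

lemma pow_lo2 {x : ℝ} (h0 : 0 ≤ x) (h1 : x ≤ 1 / 2) (k : ℕ) : Real.exp (-(2 * x * k)) ≤ (1 - x) ^ k := by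
  calc Real.exp (-(2 * x * k)) = Real.exp (-(2 * x)) ^ k := by rw [← Real.exp_nat_mul]; ring_nf
    _ ≤ _ := by
      have := one_sub_lo h0 h1
      gcongr

lemma case1' (est : SimpleGraph (Fin n) → SimpleGraph (Fin m) → PMF (Finset (Fin n)))
    (p : ℝ) (h0 : 0 ≤ p) (h1 : p ≤ 1 / 2) (hm : 1 ≤ m) (hmn : m < n) (a b : ℝ) (ha : 0 < a) (hb : 0 < b)
    (h2 : a ≤ m * (1 - p) ^ m) (h3 : b ≤ ((n - m : ℕ) : ℝ) * (1 - p) ^ m) :
    successProb n m p est ≤ 1 - 1 / 2 * (1 / ((1 / a + 2) * (1 / b + 1))) := by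
  refine (case1 est p h0 h1 hm hmn).trans ?_
  have k1 : 1 / (m * (1 - p) ^ m) ≤ 1 / a := one_div_le_one_div_of_le ha h2
  have k2 : 1 / (((n - m : ℕ) : ℝ) * (1 - p) ^ m) ≤ 1 / b := one_div_le_one_div_of_le hb h3
  have k3 : 0 < m * (1 - p) ^ m := lt_of_lt_of_le ha h2
  have k4 : 0 < ((n - m : ℕ) : ℝ) * (1 - p) ^ m := lt_of_lt_of_le hb h3
  have k5 : 1 / ((1 / a + 2) * (1 / b + 1))
      ≤ 1 / ((1 / (m * (1 - p) ^ m) + 2) * (1 / (((n - m : ℕ) : ℝ) * (1 - p) ^ m) + 1)) := by
    apply one_div_le_one_div_of_le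
    · positivity
    · gcongr
  linarith

lemma desc_lo (h : 2 * m ≤ n) (hn : 1 ≤ n) :
    Real.exp (m * (Real.log n - Real.log 2)) ≤ (Fintype.card (Fin m ↪ Fin n) : ℝ) := by
  rw [Fintype.card_embedding_eq, Fintype.card_fin, Fintype.card_fin]
  have hnr : (0 : ℝ) < n := by exact_mod_cast hn
  rw [← Real.log_div hnr.ne' (by norm_num), Real.exp_nat_mul, Real.exp_log (by positivity)]
  have h1 := Nat.pow_sub_le_descFactorial n m
  have h2 : (((n + 1 - m) ^ m : ℕ) : ℝ) ≤ (n.descFactorial m : ℝ) := by exact_mod_cast h1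
  refine le_trans ?_ h2
  push_cast
  have h3 : (n : ℝ) / 2 ≤ ((n + 1 - m : ℕ) : ℝ) := by
    rw [div_le_iff₀ (by norm_num)]
    have : n ≤ (n + 1 - m) * 2 := by omega
    exact_mod_cast this
  gcongr

/-- if `m > n / 2` then `p ≤ 8 / n` -/
lemma p_small (hn : 65 ≤ n) (h2m : n < 2 * m) (p : ℝ) (h1 : p ≤ 1 / 2)
    (hh : (m : ℝ) / 2 * Real.binEntropy p ≤ Real.log n) : p ≤ 8 / n := by
  by_contra hcon
  push Not at hcon
  have hnr : (65 : ℝ) ≤ n := by exact_mod_cast hn
  have h8 : (8 : ℝ) / n ≤ 1 / 2 := by rw [div_le_div_iff₀ (by linarith) (by norm_num)]; linarith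
  have h80 : (0 : ℝ) < 8 / n := by positivity
  have hmono := Real.binEntropy_strictMonoOn (a := 8 / (n : ℝ)) (b := p)
    ⟨h80.le, by norm_num at h8 ⊢; exact h8⟩ ⟨by linarith, by norm_num at h1 ⊢; exact h1⟩ hcon
  have hlow : 8 / (n : ℝ) * Real.log (n / 8) ≤ Real.binEntropy (8 / (n : ℝ)) := by
    unfold Real.binEntropy
    have h3 : Real.log (8 / (n : ℝ))⁻¹ = Real.log (n / 8) := by rw [inv_div]
    rw [h3]
    have h4 : 0 ≤ (1 - 8 / (n : ℝ)) * Real.log (1 - 8 / (n : ℝ))⁻¹ := by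
      apply mul_nonneg (by linarith)
      apply Real.log_nonneg
      rw [one_le_inv₀ (by linarith)]
      linarith
    linarith
  have hlog : Real.log n < 2 * Real.log (n / 8) := by
    rw [← Real.log_rpow (by positivity)]
    apply Real.log_lt_log (by linarith)
    norm_num
    rw [div_pow, lt_div_iff₀ (by norm_num)]
    nlinarith
  have hm2 : (n : ℝ) < 2 * m := by exact_mod_cast h2m
  have hbpos : 0 < Real.log (n / 8) := by
    apply Real.log_pos
    rw [lt_div_iff₀ (by norm_num)]; linarith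
  have h5 : (n : ℝ) / 4 * (8 / (n : ℝ) * Real.log (n / 8)) < (m : ℝ) / 2 * Real.binEntropy p := by
    have h6 : 8 / (n : ℝ) * Real.log (n / 8) < Real.binEntropy p := lt_of_le_of_lt hlow hmono
    have h7 : 0 < 8 / (n : ℝ) * Real.log (n / 8) := by positivity
    have h8 : (n : ℝ) / 4 < m / 2 := by linarith
    nlinarith
  have h6 : (n : ℝ) / 4 * (8 / (n : ℝ) * Real.log (n / 8)) = 2 * Real.log (n / 8) := by
    field_simp; ring
  linarith

lemma eight_pow (hn : 65 ≤ n) (hmn : m < n) (p : ℝ) (h0 : 0 ≤ p) (h1 : p ≤ 1 / 2) (hp : p ≤ 8 / n) :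
    Real.exp (-16) ≤ (1 - p) ^ m := by
  refine le_trans ?_ (pow_lo2 h0 h1 m)
  apply Real.exp_le_exp.mpr
  have hnr : (65 : ℝ) ≤ n := by exact_mod_cast hn
  have hmr : (m : ℝ) ≤ n := by exact_mod_cast hmn.le
  have : p * m ≤ 8 / n * n := by gcongr
  have h3 : 8 / (n : ℝ) * n = 8 := by field_simp
  linarith

/-- the uniform impossibility bound for `p ≤ 1/2` -/
theorem main_half : ∃ c : ℝ, 0 < c ∧ ∃ n0 : ℕ, ∀ n m : ℕ, n0 ≤ n → 1 ≤ m → m < n → ∀ p : ℝ, 0 < p → p ≤ 1 / 2 →
    (m : ℝ) / 2 * Real.binEntropy p - Real.log n ≤ -83 →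
    ∀ est : SimpleGraph (Fin n) → SimpleGraph (Fin m) → PMF (Finset (Fin n)),
    successProb n m p est ≤ 1 - c := by
  -- choose m0
  have hev : ∀ᶠ m : ℕ in atTop, 5 ≤ m ∧ 3 ≤ Real.log m ∧ Real.log m ^ 4 ≤ m := by
    have h1 : ∀ᶠ m : ℕ in atTop, 3 ≤ Real.log m :=
      (Real.tendsto_log_atTop.comp tendsto_natCast_atTop_atTop).eventually_ge_atTop 3
    have h2 : ∀ᶠ x : ℝ in atTop, Real.log x ^ 4 ≤ x := by
      have := (Real.isLittleO_pow_log_id_atTop (n := 4)).bound (by norm_num : (0:ℝ) < 1)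
      filter_upwards [this, eventually_ge_atTop (1 : ℝ)] with x hx hx1
      rw [one_mul, Real.norm_eq_abs, Real.norm_eq_abs, id, abs_of_nonneg (by linarith : (0:ℝ) ≤ x)] at hx
      exact (le_abs_self _).trans hx
    have h3 : ∀ᶠ m : ℕ in atTop, Real.log m ^ 4 ≤ m := tendsto_natCast_atTop_atTop.eventually h2
    filter_upwards [h1, h3, eventually_ge_atTop 5] with m a b c
    exact ⟨c, a, b⟩
  obtain ⟨m0, hm0⟩ := eventually_atTop.mp hev
  set c1 : ℝ := 1 / 2 * (1 / ((1 / (1 / 2) ^ m0 + 2) * (1 / (1 / 2) ^ m0 + 1))) with hc1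
  set c2 : ℝ := 1 / 2 * (1 / ((1 / 1 + 2) * (1 / Real.exp (-16) + 1))) with hc2
  have hc1p : 0 < c1 := by positivity
  have hc2p : 0 < c2 := by positivity
  refine ⟨min (min c1 c2) (1 / 2), by positivity, max 65 ⌈2 * Real.exp 16⌉₊, ?_⟩
  intro n m hn hm hmn p h0 h1 hh est
  have hn65 : 65 ≤ n := le_trans (le_max_left _ _) hn
  have hne : 2 * Real.exp 16 ≤ n := by
    have : ⌈2 * Real.exp 16⌉₊ ≤ n := le_trans (le_max_right _ _) hn
    exact Nat.ceil_le.mp this
  have hnr : (65 : ℝ) ≤ n := by exact_mod_cast hn65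
  have hmr : (1 : ℝ) ≤ m := by exact_mod_cast hm
  have hq : (1 : ℝ) / 2 ≤ 1 - p := by linarith
  have hq1 : 1 - p ≤ 1 := by linarith
  have hN1 : (1 : ℝ) ≤ ((n - m : ℕ) : ℝ) := by
    have : 1 ≤ n - m := by omega
    exact_mod_cast this
  have hcle1 : min (min c1 c2) (1 / 2) ≤ c1 := (min_le_left _ _).trans (min_le_left _ _)
  have hcle2 : min (min c1 c2) (1 / 2) ≤ c2 := (min_le_left _ _).trans (min_le_right _ _)
  have hcle3 : min (min c1 c2) (1 / 2) ≤ 1 / 2 := min_le_right _ _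
  rcases Nat.lt_or_ge m m0 with hmm | hmm
  · -- small m
    have hqm : (1 / 2 : ℝ) ^ m0 ≤ (1 - p) ^ m := by
      calc (1 / 2 : ℝ) ^ m0 ≤ (1 / 2) ^ m := pow_le_pow_of_le_one (by norm_num) (by norm_num) hmm.le
        _ ≤ (1 - p) ^ m := by gcongr
    have hp0 : (0 : ℝ) < (1 / 2) ^ m0 := by positivity
    have := case1' est p h0.le h1 hm hmn ((1 / 2) ^ m0) ((1 / 2) ^ m0) hp0 hp0
      (by nlinarith) (by nlinarith)
    linarith
  · obtain ⟨g1, g2, g3⟩ := hm0 m hmm
    by_cases hbig : 1 ≤ (m : ℝ) * (1 - p) ^ m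
    · -- isolated vertices
      have he1 : Real.exp (-16) ≤ 1 := Real.exp_le_one_iff.mpr (by norm_num)
      have hep := Real.exp_pos (-16)
      have hN : Real.exp (-16) ≤ ((n - m : ℕ) : ℝ) * (1 - p) ^ m := by
        rcases Nat.lt_or_ge n (2 * m) with h2 | h2
        · have hps := p_small hn65 h2 p h1 (by linarith)
          have := eight_pow hn65 hmn p h0.le h1 hps
          nlinarith
        · have h3 : (m : ℝ) ≤ ((n - m : ℕ) : ℝ) := by
            have : m ≤ n - m := by omega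
            exact_mod_cast this
          have h4 : 0 ≤ (1 - p) ^ m := by positivity
          nlinarith
      have := case1' est p h0.le h1 hm hmn 1 (Real.exp (-16)) one_pos hep hbig hN
      linarith
    · push Not at hbig
      -- no isolated vertices
      have h2m : 2 * m ≤ n := by
        by_contra hcon
        push Not at hcon
        have hps := p_small hn65 hcon p h1 (by linarith)
        have h3 := eight_pow hn65 hmn p h0.le h1 hps
        have h4 : Real.exp 16 ≤ m := by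
          have : (n : ℝ) < 2 * m := by exact_mod_cast hcon
          linarith
        have h5 : Real.exp 16 * Real.exp (-16) ≤ m * (1 - p) ^ m := by gcongr
        rw [← Real.exp_add] at h5
        norm_num at h5
        linarith
      have hlog : Real.log m ≤ 2 * (m * p) := by
        have h3 := pow_lo2 h0.le h1 m
        have h4 : (m : ℝ) * Real.exp (-(2 * p * m)) < 1 := by
          have : (m : ℝ) * Real.exp (-(2 * p * m)) ≤ m * (1 - p) ^ m := by gcongr
          linarith
        rw [Real.exp_neg, ← div_eq_mul_inv, div_lt_one (Real.exp_pos _)] at h4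
        have h5 := Real.log_lt_log (by linarith) h4
        rw [Real.log_exp] at h5
        linarith
      have haut := aut_prob m g1 g2 g3 p h0 h1 hlog
      have haep := aep (m := m) p h0 h1 hm
      set L : ℝ := (m : ℝ) ^ 2 / 2 * Real.binEntropy p + 8 * m with hL
      have hred := case2_red est p h0.le (by linarith) hmn L (Real.exp (70 * m)) (Real.exp_pos _).le
      have hK := desc_lo (n := n) (m := m) h2m (by omega)
      have hlast : Real.exp L * Real.exp (70 * m) / (Fintype.card (Fin m ↪ Fin n) : ℝ) ≤ 1 / 32 := by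
        have hKpos : (0 : ℝ) < Real.exp (m * (Real.log n - Real.log 2)) := Real.exp_pos _
        calc Real.exp L * Real.exp (70 * m) / (Fintype.card (Fin m ↪ Fin n) : ℝ)
            ≤ Real.exp L * Real.exp (70 * m) / Real.exp (m * (Real.log n - Real.log 2)) := by gcongr
          _ = Real.exp (L + 70 * m - m * (Real.log n - Real.log 2)) := by
              rw [← Real.exp_add, ← Real.exp_sub]
          _ ≤ Real.exp (-4) := by
              apply Real.exp_le_exp.mpr
              have h3 : (m : ℝ) * ((m : ℝ) / 2 * Real.binEntropy p - Real.log n) ≤ m * (-83) := by gcongr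
              have hl2 := Real.log_two_lt_d9
              rw [hL]
              nlinarith
          _ ≤ 1 / 32 := by
              rw [Real.exp_neg, inv_le_comm₀ (Real.exp_pos _) (by norm_num)]
              have h3 : Real.exp 4 = Real.exp 1 ^ 4 := by rw [← Real.exp_nat_mul]; norm_num
              rw [h3]
              have := Real.exp_one_gt_d9
              calc ((1 : ℝ) / 32)⁻¹ ≤ 2.7182818283 ^ 4 := by norm_num
                _ ≤ _ := by gcongr
      linarith

end Pool.Agent.V113.Rec
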