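import Mathlib

set_option autoImplicit false
open Finset

namespace Pool.Agent.V113.Rec

/-- weight of one bit -/
noncomputable def wt (p : ℝ) (b : Bool) : ℝ := if b then p else 1 - p

/-- Bernoulli product weight -/
noncomputable def W {α : Type*} [Fintype α] (p : ℝ) (ω : α → Bool) : ℝ := ∏ e, wt p (ω e)

lemma prod_formula {β : Type*} [Fintype β] [DecidableEq β] (w : β → Bool → ℝ) :
    ∑ ω : β → Bool, ∏ b, w b (ω b) = ∏ b, (w b true + w b false) := by
  have := Finset.prod_univ_sum (fun _ : β => (univ : Finset Bool)) w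
  rw [Fintype.piFinset_univ] at this
  rw [← this]
  refine Finset.prod_congr rfl fun b _ => ?_
  simp

lemma W_nonneg {α : Type*} [Fintype α] {p : ℝ} (h0 : 0 ≤ p) (h1 : p ≤ 1) (ω : α → Bool) : 0 ≤ W p ω := by
  unfold W
  apply Finset.prod_nonneg
  intro e _
  unfold wt
  split_ifs <;> linarith

lemma W_sum {α : Type*} [Fintype α] [DecidableEq α] (p : ℝ) : ∑ ω : α → Bool, W p ω = 1 := by
  unfold W
  rw [prod_formula (fun _ => wt p)]
  simp [wt]

lemma marg {α β : Type*} [Fintype α] [Fintype β] [DecidableEq α] [DecidableEq β] (ι : α ↪ β) (p : ℝ)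
    (F : (α → Bool) → ℝ) :
    ∑ ω : β → Bool, W p ω * F (fun a => ω (ι a)) = ∑ η : α → Bool, W p η * F η := by
  classical
  have h1 : ∀ ω : β → Bool, W p ω * F (fun a => ω (ι a))
      = ∑ η : α → Bool, (if (fun a => ω (ι a)) = η then W p ω * F η else 0) := by
    intro ω
    rw [Finset.sum_ite_eq]
    simp
  rw [Finset.sum_congr rfl fun ω _ => h1 ω, Finset.sum_comm]
  refine Finset.sum_congr rfl fun η _ => ?_
  have h2 : ∀ ω : β → Bool, (if (fun a => ω (ι a)) = η then W p ω * F η else 0)
      = (∏ b, (wt p (ω b) * (if ∀ a, ι a = b → ω b = η a then 1 else 0))) * F η := by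
    intro ω
    rw [Finset.prod_mul_distrib]
    by_cases h : (fun a => ω (ι a)) = η
    · rw [if_pos h]
      have : ∏ b, (if ∀ a, ι a = b → ω b = η a then (1 : ℝ) else 0) = 1 := by
        apply Finset.prod_eq_one
        intro b _
        rw [if_pos]
        intro a ha
        rw [← ha]
        exact congrFun h a
      rw [this, mul_one]
      rfl
    · rw [if_neg h]
      have : ∃ a, ω (ι a) ≠ η a := by
        by_contra hcon
        push Not at hcon
        exact h (funext hcon)
      obtain ⟨a, ha⟩ := this
      have : ∏ b, (if ∀ a, ι a = b → ω b = η a then (1 : ℝ) else 0) = 0 := by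
        apply Finset.prod_eq_zero (mem_univ (ι a))
        rw [if_neg]
        intro hcon
        exact ha (hcon a rfl)
      rw [this]; ring
  rw [Finset.sum_congr rfl fun ω _ => h2 ω, ← Finset.sum_mul,
    prod_formula (fun b x => wt p x * (if ∀ a, ι a = b → x = η a then 1 else 0))]
  congr 1
  unfold W
  have h3 : ∀ b : β, b ∉ univ.map ι → (wt p true * (if ∀ a, ι a = b → true = η a then 1 else 0)
      + wt p false * (if ∀ a, ι a = b → false = η a then 1 else 0)) = 1 := by
    intro b hb
    have hb' : ∀ a, ι a ≠ b := by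
      intro a ha
      exact hb (by rw [← ha]; exact mem_map_of_mem _ (mem_univ a))
    rw [if_pos (fun a ha => absurd ha (hb' a)), if_pos (fun a ha => absurd ha (hb' a))]
    simp [wt]
  rw [← Finset.prod_subset (subset_univ (univ.map ι)) (fun b _ hb => h3 b hb), Finset.prod_map]
  refine Finset.prod_congr rfl fun a _ => ?_
  cases hη : η a
  · rw [if_neg, if_pos]
    · simp
    · intro a' ha'
      rw [ι.injective ha', hη]
    · intro hcon
      have := hcon a rfl
      rw [hη] at this
      exact absurd this (by decide)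
  · rw [if_pos, if_neg]
    · simp
    · intro hcon
      have := hcon a rfl
      rw [hη] at this
      exact absurd this (by decide)
    · intro a' ha'
      rw [ι.injective ha', hη]

/-- the probability that all bits of `D` are equal to `x` -/
lemma const_prob {β : Type*} [Fintype β] [DecidableEq β] (p : ℝ) (D : Finset β) (x : Bool) :
    ∑ ω : β → Bool, W p ω * (if ∀ e ∈ D, ω e = x then 1 else 0) = (wt p x) ^ D.card := by
  have h2 : ∀ ω : β → Bool, W p ω * (if ∀ e ∈ D, ω e = x then 1 else 0)
      = ∏ b, (wt p (ω b) * (if b ∈ D → ω b = x then 1 else 0)) := by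
    intro ω
    rw [Finset.prod_mul_distrib]
    unfold W
    congr 1
    rw [Finset.prod_ite_zero]
    simp
  rw [Finset.sum_congr rfl fun ω _ => h2 ω,
    prod_formula (fun b y => wt p y * (if b ∈ D → y = x then 1 else 0))]
  have h3 : ∀ b : β, b ∉ D → (wt p true * (if b ∈ D → true = x then 1 else 0)
      + wt p false * (if b ∈ D → false = x then 1 else 0)) = 1 := by
    intro b hb
    rw [if_pos (fun h => absurd h hb), if_pos (fun h => absurd h hb)]
    simp [wt]
  rw [← Finset.prod_subset (subset_univ D) (fun b _ hb => h3 b hb)]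
  rw [Finset.prod_congr rfl (g := fun _ => wt p x), Finset.prod_const]
  intro b hb
  cases x
  · rw [if_neg (by simp [hb]), if_pos (by simp)]; ring
  · rw [if_pos (by simp), if_neg (by simp [hb])]; ring

/-- bound for the weight of invariant configurations -/
lemma orbit_bound {β : Type*} [Fintype β] [DecidableEq β] (τ : Equiv.Perm β) (w : β → Bool → ℝ)
    (hw : ∀ b x, 0 ≤ w b x) (u : β → ℝ)
    (hfix : ∀ b, τ b = b → w b true + w b false ≤ u b)
    (hmov : ∀ s : Finset β, 2 ≤ s.card → (∀ b ∈ s, τ b ≠ b) →
      ∏ b ∈ s, w b true + ∏ b ∈ s, w b false ≤ ∏ b ∈ s, u b) :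
    ∑ ω : β → Bool, (if ∀ b, ω (τ b) = ω b then ∏ b, w b (ω b) else 0) ≤ ∏ b, u b := by
  classical
  let st := Equiv.Perm.SameCycle.setoid τ
  let Q := Quotient st
  let c : β → Q := Quotient.mk st
  have hinv : ∀ ω : β → Bool, (∀ b, ω (τ b) = ω b) → ∀ a b, τ.SameCycle a b → ω a = ω b := by
    intro ω hω a b hab
    obtain ⟨k, hk⟩ := hab
    have hn : ∀ (j : ℕ) (x : β), ω ((τ ^ j) x) = ω x := by
      intro j
      induction j with
      | zero => intro x; simp
      | succ j ih => intro x; rw [pow_succ', Equiv.Perm.mul_apply, hω, ih]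
    have hz : ∀ (j : ℤ) (x : β), ω ((τ ^ j) x) = ω x := by
      intro j
      cases j with
      | ofNat j => intro x; exact hn j x
      | negSucc j =>
        intro x
        have := hn (j + 1) ((τ ^ (Int.negSucc j)) x)
        rw [← this]
        congr 1
        rw [zpow_negSucc]
        simp
    rw [← hk, hz]
  -- bound by functions on the quotient
  have h1 : ∑ ω : β → Bool, (if ∀ b, ω (τ b) = ω b then ∏ b, w b (ω b) else 0)
      ≤ ∑ η : Q → Bool, ∏ b, w b (η (c b)) := by
    rw [← Finset.sum_filter]
    have hinj : Function.Injective (fun η : Q → Bool => fun b => η (c b)) := by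
      intro η η' h
      funext o
      obtain ⟨b, rfl⟩ := Quotient.exists_rep o
      exact congrFun h b
    have himg : ∑ η : Q → Bool, ∏ b, w b (η (c b))
        = ∑ ω ∈ univ.image (fun η : Q → Bool => fun b => η (c b)), ∏ b, w b (ω b) := by
      rw [Finset.sum_image fun a _ b _ h => hinj h]
    rw [himg]
    apply Finset.sum_le_sum_of_subset_of_nonneg
    · intro ω hω
      simp only [mem_filter, mem_univ, true_and] at hω
      rw [mem_image]
      refine ⟨Quotient.lift ω (fun a b hab => hinv ω hω a b hab), mem_univ _, ?_⟩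
      funext b
      rfl
    · intro ω _ _
      exact Finset.prod_nonneg fun b _ => hw b _
  refine h1.trans ?_
  have h2 : ∀ η : Q → Bool, ∏ b, w b (η (c b)) = ∏ o : Q, ∏ b ∈ univ.filter (fun b => c b = o), w b (η o) := by
    intro η
    rw [← Finset.prod_fiberwise (s := univ) (g := c)]
    refine Finset.prod_congr rfl fun o _ => Finset.prod_congr rfl fun b hb => ?_
    simp only [mem_filter, mem_univ, true_and] at hb
    rw [hb]
  rw [Finset.sum_congr rfl fun η _ => h2 η,
    prod_formula (fun (o : Q) (x : Bool) => ∏ b ∈ univ.filter (fun b => c b = o), w b x),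
    ← Finset.prod_fiberwise (s := univ) (g := c) (f := u)]
  apply Finset.prod_le_prod
  · intro o _
    exact add_nonneg (Finset.prod_nonneg fun b _ => hw b _) (Finset.prod_nonneg fun b _ => hw b _)
  intro o _
  set s := univ.filter (fun b => c b = o) with hs
  obtain ⟨b0, hb0⟩ := Quotient.exists_rep o
  have hb0s : b0 ∈ s := by
    simp only [hs, mem_filter, mem_univ, true_and]
    exact hb0
  have hsc : ∀ b ∈ s, τ.SameCycle b0 b := by
    intro b hb
    simp only [hs, mem_filter, mem_univ, true_and] at hb
    have : c b0 = c b := by rw [hb]; exact hb0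
    exact Quotient.exact this
  by_cases hcard : 2 ≤ s.card
  · apply hmov s hcard
    intro b hb hfixb
    have hsub : s ⊆ {b} := by
      intro x hx
      rw [mem_singleton]
      have h3 : τ.SameCycle b x := (hsc b hb).symm.trans (hsc x hx)
      exact (h3.eq_of_left hfixb).symm
    have := card_le_card hsub
    rw [card_singleton] at this
    omega
  · have hc1 : s.card = 1 := by
      have : 0 < s.card := card_pos.mpr ⟨b0, hb0s⟩
      omega
    obtain ⟨b, hb⟩ := card_eq_one.mp hc1
    have hbb : b0 = b := by rw [hb, mem_singleton] at hb0s; exact hb0s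
    have hτ : τ b0 ∈ s := by
      simp only [hs, mem_filter, mem_univ, true_and]
      rw [← hb0]
      apply Quotient.sound
      exact (Equiv.Perm.sameCycle_apply_left.mpr (Equiv.Perm.SameCycle.refl τ b0))
    rw [hb, mem_singleton] at hτ
    rw [hb, Finset.prod_singleton, Finset.prod_singleton, Finset.prod_singleton]
    apply hfix
    rw [← hbb] at hτ ⊢
    exact hτ

end Pool.Agent.V113.Rec
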