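import Pool.Agent.V113.Rec.Model
import Pool.Agent.V113.Rec.Wt

set_option autoImplicit false
open Finset

namespace Pool.Agent.V113.Rec

/-- possible edges -/
abbrev E (n : ℕ) := {e : Sym2 (Fin n) // ¬ e.IsDiag}

/-- graph of a configuration -/
def gr {n : ℕ} (ω : E n → Bool) : SimpleGraph (Fin n) :=
  SimpleGraph.fromEdgeSet {e | ∃ h : ¬ e.IsDiag, ω ⟨e, h⟩ = true}

variable {n m : ℕ}

lemma gr_mem (ω : E n → Bool) (e : E n) : e.1 ∈ (gr ω).edgeSet ↔ ω e = true := by
  unfold gr
  rw [SimpleGraph.edgeSet_fromEdgeSet]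
  constructor
  · rintro ⟨⟨h, h1⟩, _⟩
    exact h1
  · intro h
    refine ⟨⟨e.2, h⟩, ?_⟩
    simpa using e.2

lemma gr_adj (ω : E n → Bool) (i j : Fin n) (h : ¬ (s(i, j) : Sym2 (Fin n)).IsDiag) :
    (gr ω).Adj i j ↔ ω ⟨s(i, j), h⟩ = true := by
  rw [← SimpleGraph.mem_edgeSet]
  exact gr_mem ω ⟨s(i, j), h⟩

open Classical in
/-- configurations and graphs -/
noncomputable def grEquiv (n : ℕ) : (E n → Bool) ≃ SimpleGraph (Fin n) where
  toFun := gr
  invFun G := fun e => decide (e.1 ∈ G.edgeSet)
  left_inv ω := by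
    funext e
    have := gr_mem ω e
    cases h : ω e
    · rw [h] at this
      simpa using this
    · rw [h] at this
      simpa using this
  right_inv G := by
    ext i j
    by_cases hij : i = j
    · subst hij; simp
    · have h : ¬ (s(i, j) : Sym2 (Fin n)).IsDiag := by simpa using hij
      rw [gr_adj _ i j h]
      simp

lemma erWeight_gr (p : ℝ) (ω : E n → Bool) : erWeight p (gr ω) = W p ω := by
  classical
  unfold erWeight W wt
  rw [Finset.prod_ite, Finset.prod_const, Finset.prod_const]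
  have h1 : (univ.filter fun e : E n => ω e = true).card = (gr ω).edgeFinset.card := by
    refine Finset.card_bij (fun e _ => e.1) ?_ ?_ ?_
    · intro e he
      simp only [mem_filter, mem_univ, true_and] at he
      rw [SimpleGraph.mem_edgeFinset]
      exact (gr_mem ω e).mpr he
    · intro a _ b _ h
      exact Subtype.ext h
    · intro e he
      rw [SimpleGraph.mem_edgeFinset] at he
      have hd : ¬ e.IsDiag := SimpleGraph.not_isDiag_of_mem_edgeSet _ he
      refine ⟨⟨e, hd⟩, ?_, rfl⟩
      simp only [mem_filter, mem_univ, true_and]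
      exact (gr_mem ω ⟨e, hd⟩).mp he
  have hE : Fintype.card (E n) = n.choose 2 := by
    have := Sym2.card_subtype_not_diag (α := Fin n)
    simpa using this
  have h2 : (univ.filter fun e : E n => ¬ ω e = true).card = n.choose 2 - (gr ω).edgeFinset.card := by
    have := Finset.card_filter_add_card_filter_not (s := (univ : Finset (E n))) (fun e => ω e = true)
    rw [card_univ, hE, h1] at this
    omega
  rw [h1, h2]

lemma sum_graphs (p : ℝ) (F : SimpleGraph (Fin n) → ℝ) :
    ∑ G : SimpleGraph (Fin n), erWeight p G * F G = ∑ ω : E n → Bool, W p ω * F (gr ω) := by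
  rw [← Equiv.sum_comp (grEquiv n)]
  refine Finset.sum_congr rfl fun ω _ => ?_
  show erWeight p (gr ω) * F (gr ω) = _
  rw [erWeight_gr]

/-- the map on edges -/
def mapE (φ : Fin m ↪ Fin n) : E m ↪ E n where
  toFun e := ⟨Sym2.map φ e.1, fun h => e.2 ((Sym2.isDiag_map φ.injective).mp h)⟩
  inj' a b h := by
    apply Subtype.ext
    exact Sym2.map.injective φ.injective (congrArg Subtype.val h)

lemma gr_comap (φ : Fin m ↪ Fin n) (ω : E n → Bool) :
    (gr ω).comap φ = gr (fun e => ω (mapE φ e)) := by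
  ext i j
  by_cases hij : i = j
  · subst hij; simp
  · have h : ¬ (s(i, j) : Sym2 (Fin m)).IsDiag := by simpa using hij
    have h' : ¬ (s(φ i, φ j) : Sym2 (Fin n)).IsDiag := by simpa using hij
    rw [SimpleGraph.comap_adj, gr_adj _ _ _ h', gr_adj _ _ _ h]
    rfl

/-- the induced graph of an `ER(n,p)` graph along an injection is `ER(m,p)` -/
lemma sum_comap (p : ℝ) (φ : Fin m ↪ Fin n) (F : SimpleGraph (Fin m) → ℝ) :
    ∑ G : SimpleGraph (Fin n), erWeight p G * F (G.comap φ) = ∑ η : E m → Bool, W p η * F (gr η) := by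
  rw [sum_graphs p (fun G => F (G.comap φ))]
  simp only [gr_comap]
  exact marg (mapE φ) p (fun η => F (gr η))

/-- the permutation of the edges -/
def permE (σ : Equiv.Perm (Fin m)) : Equiv.Perm (E m) where
  toFun := mapE σ.toEmbedding
  invFun := mapE σ.symm.toEmbedding
  left_inv e := by
    apply Subtype.ext
    show Sym2.map σ.symm (Sym2.map σ e.1) = e.1
    rw [Sym2.map_map]
    simp
  right_inv e := by
    apply Subtype.ext
    show Sym2.map σ (Sym2.map σ.symm e.1) = e.1
    rw [Sym2.map_map]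
    simp

lemma mem_autG (σ : Equiv.Perm (Fin m)) (η : E m → Bool) :
    σ ∈ autG (gr η) ↔ ∀ e, η (permE σ e) = η e := by
  unfold autG
  simp only [mem_filter, mem_univ, true_and]
  have h := gr_comap σ.toEmbedding η
  have h' : (gr η).comap (⇑σ) = gr (fun e => η (permE σ e)) := h
  rw [h']
  constructor
  · intro hh e
    have := (grEquiv m).injective (a₁ := fun e => η (permE σ e)) (a₂ := η) hh
    exact congrFun this e
  · intro hh
    congr 1
    funext e
    exact hh e

/-- an edge is moved if one endpoint is moved and the other is not its image -/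
lemma permE_ne (σ : Equiv.Perm (Fin m)) (i j : Fin m) (h : ¬ (s(i, j) : Sym2 (Fin m)).IsDiag)
    (hi : σ i ≠ i) (hj : j ≠ σ i) : permE σ ⟨s(i, j), h⟩ ≠ ⟨s(i, j), h⟩ := by
  intro hcon
  have h1 : Sym2.map σ s(i, j) = s(i, j) := congrArg Subtype.val hcon
  rw [Sym2.map_mk, Sym2.eq_iff] at h1
  rcases h1 with ⟨h1, _⟩ | ⟨h1, _⟩
  · exact hi h1
  · exact hj h1.symm

lemma permE_touch (σ : Equiv.Perm (Fin m)) (e : E m) (h : ∀ i ∈ e.1, σ i = i) : permE σ e = e := by
  apply Subtype.ext
  show Sym2.map σ e.1 = e.1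
  obtain ⟨e, he⟩ := e
  induction e with
  | _ i j =>
    rw [Sym2.map_mk]
    simp only [Sym2.mem_iff, forall_eq_or_imp, forall_eq] at h
    show s(σ i, σ j) = s(i, j)
    rw [h.1, h.2]

end Pool.Agent.V113.Rec
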