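import Mathlib

set_option autoImplicit false
open Finset

namespace Pool.Agent.V113.Rec

open Classical in
/-- The probability of the graph `G` on `n` vertices under the Erdős–Rényi law `ER(n,p)`. -/
noncomputable def erWeight {n : ℕ} (p : ℝ) (G : SimpleGraph (Fin n)) : ℝ :=
  p ^ G.edgeFinset.card * (1 - p) ^ (n.choose 2 - G.edgeFinset.card)

open Classical in
/-- The probability that the randomised estimator `est` recovers the set `S`. Here `G ~ ER(n,p)`
and `φ` is an independent uniformly random injection from `Fin m` to `Fin n`; the hidden set is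
`S = φ(Fin m)`, the relabelling is `π = φ⁻¹ : S → Fin m`, and the observed graph `H_π` on `Fin m` is
`G.comap φ` (`i`, `j` adjacent iff `φ i`, `φ j` are adjacent in `G`). The law of the output of the
estimator on the input `(G, H_π)` is `est G H_π`. -/
noncomputable def successProb (n m : ℕ) (p : ℝ)
    (est : SimpleGraph (Fin n) → SimpleGraph (Fin m) → PMF (Finset (Fin n))) : ℝ :=
  ∑ G : SimpleGraph (Fin n), erWeight p G *
    ((∑ φ : Fin m ↪ Fin n, (est G (G.comap φ) (univ.map φ)).toReal) /
      (Fintype.card (Fin m ↪ Fin n) : ℝ))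

variable {n m : ℕ}

open Classical in
/-- automorphisms of `H` -/
noncomputable def autG (H : SimpleGraph (Fin m)) : Finset (Equiv.Perm (Fin m)) :=
  univ.filter fun σ => H.comap σ = H

open Classical in
lemma fiber_card (G : SimpleGraph (Fin n)) (H : SimpleGraph (Fin m)) (φ0 : Fin m ↪ Fin n)
    (h0 : G.comap φ0 = H) :
    (univ.filter fun φ : Fin m ↪ Fin n => G.comap φ = H ∧ univ.map φ = univ.map φ0).card
      = (autG H).card := by
  symm
  refine Finset.card_bij (fun (σ : Equiv.Perm (Fin m)) _ => σ.toEmbedding.trans φ0) ?_ ?_ ?_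
  · intro σ hσ
    simp only [autG, mem_filter, mem_univ, true_and] at hσ ⊢
    constructor
    · conv_rhs => rw [← hσ, ← h0]
      rfl
    · rw [← Finset.map_map]
      congr 1
      ext x
      simp
  · intro σ _ τ _ h
    ext i
    have := congrArg (fun f : Fin m ↪ Fin n => f i) h
    simp at this
    rw [this]
  · intro φ hφ
    simp only [mem_filter, mem_univ, true_and] at hφ
    obtain ⟨h1, h2⟩ := hφ
    have hex : ∀ i, ∃ j, φ0 j = φ i := by
      intro i
      have : φ i ∈ univ.map φ := mem_map_of_mem _ (mem_univ i)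
      rw [h2, mem_map] at this
      obtain ⟨j, _, hj⟩ := this
      exact ⟨j, hj⟩
    choose f hf using hex
    have hinj : Function.Injective f := by
      intro a b hab
      apply φ.injective
      rw [← hf a, ← hf b, hab]
    have hbij : Function.Bijective f := Finite.injective_iff_bijective.mp hinj
    refine ⟨Equiv.ofBijective f hbij, ?_, ?_⟩
    · simp only [autG, mem_filter, mem_univ, true_and]
      conv_lhs => rw [← h0]
      rw [← h1, SimpleGraph.comap_comap]
      congr 1
      ext i
      simp [hf]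
    · ext i
      simp [hf]

section
variable (G : SimpleGraph (Fin n)) (g : SimpleGraph (Fin m) → Finset (Fin n) → ℝ)
  (hg0 : ∀ H S, 0 ≤ g H S) (hg1 : ∀ H, ∑ S, g H S ≤ 1)
include hg0 hg1

open Classical in
lemma class_sum (H : SimpleGraph (Fin m)) :
    ∑ φ ∈ univ.filter (fun φ : Fin m ↪ Fin n => G.comap φ = H), g H (univ.map φ) ≤ (autG H).card := by
  set C := univ.filter (fun φ : Fin m ↪ Fin n => G.comap φ = H) with hC
  rw [Finset.sum_comp (g H) (fun φ : Fin m ↪ Fin n => univ.map φ)]
  have : ∀ S ∈ C.image (fun φ : Fin m ↪ Fin n => univ.map φ),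
      (C.filter fun φ => univ.map φ = S).card • g H S = (autG H).card * g H S := by
    intro S hS
    rw [mem_image] at hS
    obtain ⟨φ0, hφ0, rfl⟩ := hS
    have h0 : G.comap φ0 = H := by simpa [hC] using hφ0
    rw [← fiber_card G H φ0 h0, nsmul_eq_mul, hC, Finset.filter_filter]
  rw [Finset.sum_congr rfl this, ← Finset.mul_sum]
  calc ((autG H).card : ℝ) * ∑ S ∈ C.image (fun φ : Fin m ↪ Fin n => univ.map φ), g H S
      ≤ (autG H).card * 1 := by
        gcongr
        exact (Finset.sum_le_sum_of_subset_of_nonneg (subset_univ _) fun S _ _ => hg0 H S).trans (hg1 H)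
    _ = _ := mul_one _

omit hg0 hg1 in
open Classical in
lemma class_two (H : SimpleGraph (Fin m)) (φ φ' : Fin m ↪ Fin n) (h : G.comap φ = H)
    (h' : G.comap φ' = H) (hne : univ.map φ ≠ univ.map φ') :
    2 * (autG H).card ≤ (univ.filter (fun φ : Fin m ↪ Fin n => G.comap φ = H)).card := by
  have h1 := fiber_card G H φ h
  have h2 := fiber_card G H φ' h'
  set A := univ.filter fun ψ : Fin m ↪ Fin n => G.comap ψ = H ∧ univ.map ψ = univ.map φ with hA
  set B := univ.filter fun ψ : Fin m ↪ Fin n => G.comap ψ = H ∧ univ.map ψ = univ.map φ' with hB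
  have hd : Disjoint A B := by
    rw [Finset.disjoint_left]
    intro ψ hψ hψ'
    simp only [hA, hB, mem_filter, mem_univ, true_and] at hψ hψ'
    exact hne (hψ.2.symm.trans hψ'.2)
  calc 2 * (autG H).card = A.card + B.card := by rw [h1, h2]; ring
    _ = (A ∪ B).card := (card_union_of_disjoint hd).symm
    _ ≤ _ := by
      apply card_le_card
      intro ψ hψ
      simp only [hA, hB, mem_union, mem_filter, mem_univ, true_and] at hψ ⊢
      rcases hψ with h | h <;> exact h.1

open Classical in
/-- if the class of `φ` has two ranges, the estimator errs with probability at least one half -/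
lemma half_lemma :
    ∑ φ : Fin m ↪ Fin n, g (G.comap φ) (univ.map φ)
      ≤ (Fintype.card (Fin m ↪ Fin n) : ℝ) - 1 / 2 *
        (univ.filter fun φ : Fin m ↪ Fin n => ∃ φ' : Fin m ↪ Fin n,
          G.comap φ' = G.comap φ ∧ univ.map φ' ≠ univ.map φ).card := by
  set P : (Fin m ↪ Fin n) → Prop := fun φ => ∃ φ' : Fin m ↪ Fin n,
          G.comap φ' = G.comap φ ∧ univ.map φ' ≠ univ.map φ with hP
  have key : ∑ φ : Fin m ↪ Fin n, (g (G.comap φ) (univ.map φ) - 1 + 1 / 2 * (if P φ then (1 : ℝ) else 0)) ≤ 0 := by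
    rw [← Finset.sum_fiberwise (s := univ) (g := fun φ : Fin m ↪ Fin n => G.comap φ)]
    apply Finset.sum_nonpos
    intro H _
    have hrw : ∑ φ ∈ univ.filter (fun φ : Fin m ↪ Fin n => G.comap φ = H),
        (g (G.comap φ) (univ.map φ) - 1 + 1 / 2 * (if P φ then (1 : ℝ) else 0))
        = ∑ φ ∈ univ.filter (fun φ : Fin m ↪ Fin n => G.comap φ = H), g H (univ.map φ)
          + ∑ φ ∈ univ.filter (fun φ : Fin m ↪ Fin n => G.comap φ = H),
            (- 1 + 1 / 2 * (if P φ then (1 : ℝ) else 0)) := by
      rw [← Finset.sum_add_distrib]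
      refine Finset.sum_congr rfl fun φ hφ => ?_
      simp only [mem_filter, mem_univ, true_and] at hφ
      have hgg : g (G.comap φ) (univ.map φ) = g H (univ.map φ) := by rw [hφ]
      rw [hgg]; ring
    rw [hrw]
    by_cases hex : ∃ φ : Fin m ↪ Fin n, G.comap φ = H ∧ P φ
    · obtain ⟨φ, h1, φ', h2, h3⟩ := hex
      rw [h1] at h2
      have hc := class_two G H φ φ' h1 h2 (Ne.symm h3)
      have hs := class_sum G g hg0 hg1 H
      have hall : ∀ ψ ∈ univ.filter (fun φ : Fin m ↪ Fin n => G.comap φ = H),
          (- 1 + 1 / 2 * (if P ψ then (1 : ℝ) else 0)) ≤ -1 / 2 := by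
        intro ψ _
        split_ifs <;> norm_num
      have hsum := Finset.sum_le_sum hall
      rw [Finset.sum_const, nsmul_eq_mul] at hsum
      have hc' : (2 : ℝ) * (autG H).card ≤ (univ.filter (fun φ : Fin m ↪ Fin n => G.comap φ = H)).card := by
        exact_mod_cast hc
      linarith
    · push Not at hex
      rw [← Finset.sum_add_distrib]
      apply Finset.sum_nonpos
      intro φ hφ
      simp only [mem_filter, mem_univ, true_and] at hφ
      rw [if_neg (hex φ hφ)]
      have : g H (univ.map φ) ≤ 1 := by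
        refine le_trans ?_ (hg1 H)
        exact Finset.single_le_sum (f := fun S => g H S) (fun S _ => hg0 H S) (mem_univ _)
      linarith
  rw [Finset.sum_add_distrib, Finset.sum_sub_distrib, ← Finset.mul_sum, Finset.sum_boole,
    Finset.sum_const, card_univ, nsmul_eq_mul, mul_one] at key
  linarith

open Classical in
lemma typical_lemma (T : Finset (SimpleGraph (Fin m))) (A : ℝ) (hA : ∀ H ∈ T, ((autG H).card : ℝ) ≤ A) :
    ∑ φ : Fin m ↪ Fin n, g (G.comap φ) (univ.map φ)
      ≤ (∑ φ : Fin m ↪ Fin n, if G.comap φ ∈ T then (0 : ℝ) else 1) + T.card * A := by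
  have hle1 : ∀ H S, g H S ≤ 1 := fun H S =>
    le_trans (Finset.single_le_sum (f := fun S => g H S) (fun S _ => hg0 H S) (mem_univ _)) (hg1 H)
  have h1 : ∑ φ : Fin m ↪ Fin n, g (G.comap φ) (univ.map φ)
      ≤ ∑ φ : Fin m ↪ Fin n, ((if G.comap φ ∈ T then (0 : ℝ) else 1)
        + (if G.comap φ ∈ T then g (G.comap φ) (univ.map φ) else 0)) := by
    apply Finset.sum_le_sum
    intro φ _
    split_ifs
    · simp
    · simpa using hle1 _ _
  refine h1.trans ?_
  rw [Finset.sum_add_distrib]
  gcongr
  rw [← Finset.sum_filter]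
  have h2 : ∑ φ ∈ univ.filter (fun φ : Fin m ↪ Fin n => G.comap φ ∈ T), g (G.comap φ) (univ.map φ)
      = ∑ H ∈ T, ∑ φ ∈ univ.filter (fun φ : Fin m ↪ Fin n => G.comap φ = H), g H (univ.map φ) := by
    rw [← Finset.sum_fiberwise_of_maps_to (s := univ.filter (fun φ : Fin m ↪ Fin n => G.comap φ ∈ T))
      (t := T) (g := fun φ : Fin m ↪ Fin n => G.comap φ)
      (fun φ hφ => by simpa using hφ)]
    refine Finset.sum_congr rfl fun H hH => ?_
    rw [Finset.filter_filter]
    refine Finset.sum_congr ?_ ?_
    · ext φ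
      simp only [mem_filter, mem_univ, true_and]
      constructor
      · exact fun h => h.2
      · exact fun h => ⟨by rw [h]; exact hH, h⟩
    · intro φ hφ
      simp only [mem_filter, mem_univ, true_and] at hφ
      rw [hφ]
  rw [h2]
  calc ∑ H ∈ T, ∑ φ ∈ univ.filter (fun φ : Fin m ↪ Fin n => G.comap φ = H), g H (univ.map φ)
      ≤ ∑ H ∈ T, A := Finset.sum_le_sum fun H hH => (class_sum G g hg0 hg1 H).trans (hA H hH)
    _ = T.card * A := by rw [Finset.sum_const, nsmul_eq_mul]

end

end Pool.Agent.V113.Rec
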