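import Pool.Agent.V113.Rec.Final

set_option autoImplicit false
open Finset

namespace Pool.Agent.V113.Rec

variable {n m : ℕ}

lemma W_not {α : Type*} [Fintype α] (p : ℝ) (ω : α → Bool) : W p (fun e => !ω e) = W (1 - p) ω := by
  unfold W
  refine Finset.prod_congr rfl fun e _ => ?_
  cases h : ω e <;> simp [wt, h]

lemma gr_not (ω : E n → Bool) : gr (fun e => !ω e) = (gr ω)ᶜ := by
  ext i j
  by_cases hij : i = j
  · subst hij; simp
  · have h : ¬ (s(i, j) : Sym2 (Fin n)).IsDiag := by simpa using hij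
    rw [SimpleGraph.compl_adj, gr_adj _ _ _ h, gr_adj _ _ _ h]
    simp [hij]

lemma comap_compl (G : SimpleGraph (Fin n)) (φ : Fin m ↪ Fin n) : Gᶜ.comap φ = (G.comap φ)ᶜ := by
  ext i j
  simp [SimpleGraph.compl_adj]

lemma sum_compl (p : ℝ) (F : SimpleGraph (Fin n) → ℝ) :
    ∑ G : SimpleGraph (Fin n), erWeight p G * F G = ∑ G : SimpleGraph (Fin n), erWeight (1 - p) G * F Gᶜ := by
  rw [sum_graphs, sum_graphs (1 - p) (fun G => F Gᶜ)]
  have hinv : Function.Involutive (fun ω : E n → Bool => fun e => !ω e) := by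
    intro ω; funext e; simp
  rw [← Equiv.sum_comp hinv.toPerm]
  refine Finset.sum_congr rfl fun ω _ => ?_
  show W p (fun e => !ω e) * F (gr fun e => !ω e) = _
  rw [W_not, gr_not]

lemma success_compl (est : SimpleGraph (Fin n) → SimpleGraph (Fin m) → PMF (Finset (Fin n))) (p : ℝ) :
    successProb n m p est = successProb n m (1 - p) (fun G H => est Gᶜ Hᶜ) := by
  unfold successProb
  rw [sum_compl p (fun G => (∑ φ : Fin m ↪ Fin n, (est G (G.comap φ) (univ.map φ)).toReal) /
      (Fintype.card (Fin m ↪ Fin n) : ℝ))]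
  refine Finset.sum_congr rfl fun G _ => ?_
  simp only [comap_compl]

theorem main_all : ∃ c : ℝ, 0 < c ∧ ∃ n0 : ℕ, ∀ n m : ℕ, n0 ≤ n → 1 ≤ m → m < n → ∀ p : ℝ, 0 < p → p < 1 →
    (m : ℝ) / 2 * Real.binEntropy p - Real.log n ≤ -83 →
    ∀ est : SimpleGraph (Fin n) → SimpleGraph (Fin m) → PMF (Finset (Fin n)),
    successProb n m p est ≤ 1 - c := by
  obtain ⟨c, hc, n0, h⟩ := main_half
  refine ⟨c, hc, n0, ?_⟩
  intro n m hn hm hmn p h0 h1 hh est
  rcases le_total p (1 / 2) with hp | hp
  · exact h n m hn hm hmn p h0 hp hh est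
  · rw [success_compl]
    apply h n m hn hm hmn (1 - p) (by linarith) (by linarith) _ _
    rw [Real.binEntropy_one_sub]
    exact hh

/-- The graph `H_π` on `Fin m` obtained from `G[S]` by relabelling its vertices through the
bijection `π : S → Fin m`: `i` and `j` are adjacent iff `π⁻¹ i` and `π⁻¹ j` are adjacent in `G`. -/
def relabel {n m : ℕ} (G : SimpleGraph (Fin n)) (S : Finset (Fin n)) (π : S ≃ Fin m) :
    SimpleGraph (Fin m) :=
  G.comap fun i => ((π.symm i : S) : Fin n)

/-- The probability `Pr(Ŝ = S)` that the randomised estimator `est` recovers `S`: `G ~ ER(n,p)`,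
`S` is a uniformly random `m`-subset, `π : S → Fin m` a uniformly random bijection, and the law of
the output on the observation `(G, H_π)` is `est G H_π`. -/
noncomputable def recoverProb (n m : ℕ) (p : ℝ)
    (est : SimpleGraph (Fin n) → SimpleGraph (Fin m) → PMF (Finset (Fin n))) : ℝ :=
  ∑ G : SimpleGraph (Fin n), erWeight p G *
    ((∑ S ∈ (univ : Finset (Fin n)).powersetCard m,
      (∑ π : (S ≃ Fin m), (est G (relabel G S π) S).toReal) / (m.factorial : ℝ)) / (n.choose m : ℝ))

lemma inj_sum (f : (Fin m ↪ Fin n) → ℝ) :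
    ∑ φ : Fin m ↪ Fin n, f φ = ∑ S ∈ (univ : Finset (Fin n)).powersetCard m,
      ∑ π : (S ≃ Fin m), f (π.symm.toEmbedding.trans (Function.Embedding.subtype _)) := by
  classical
  rw [← Finset.sum_fiberwise_of_maps_to (s := (univ : Finset (Fin m ↪ Fin n)))
    (t := (univ : Finset (Fin n)).powersetCard m) (g := fun φ => univ.map φ)
    (fun φ _ => by rw [mem_powersetCard]; exact ⟨subset_univ _, by rw [card_map, card_univ, Fintype.card_fin]⟩)]
  refine Finset.sum_congr rfl fun S hS => ?_
  symm
  refine Finset.sum_bij (fun (π : S ≃ Fin m) _ => π.symm.toEmbedding.trans (Function.Embedding.subtype _)) ?_ ?_ ?_ ?_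
  · intro π _
    rw [mem_filter]
    refine ⟨mem_univ _, ?_⟩
    ext x
    rw [mem_map]
    constructor
    · rintro ⟨i, _, rfl⟩
      exact (π.symm i).2
    · intro hx
      exact ⟨π ⟨x, hx⟩, mem_univ _, by simp⟩
  · intro π _ π' _ h
    have h2 : π.symm = π'.symm := by
      ext i
      have := congrArg (fun g : Fin m ↪ Fin n => (g i : ℕ)) h
      simpa using this
    have := congrArg Equiv.symm h2
    simpa using this
  · intro φ hφ
    rw [mem_filter] at hφ
    have hmem : ∀ i, φ i ∈ S := fun i => by rw [← hφ.2]; exact mem_map_of_mem _ (mem_univ i)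
    have hbij : Function.Bijective (fun i => (⟨φ i, hmem i⟩ : S)) := by
      constructor
      · intro a b hab
        exact φ.injective (congrArg Subtype.val hab)
      · rintro ⟨x, hx⟩
        rw [← hφ.2, mem_map] at hx
        obtain ⟨i, _, hi⟩ := hx
        exact ⟨i, Subtype.ext hi⟩
    refine ⟨(Equiv.ofBijective _ hbij).symm, mem_univ _, ?_⟩
    ext i
    simp
  · intro π _
    rfl

lemma recover_eq (p : ℝ) (est : SimpleGraph (Fin n) → SimpleGraph (Fin m) → PMF (Finset (Fin n))) :
    recoverProb n m p est = successProb n m p est := by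
  unfold recoverProb successProb
  refine Finset.sum_congr rfl fun G _ => ?_
  congr 1
  rw [inj_sum (fun φ => (est G (G.comap φ) (univ.map φ)).toReal), ← Finset.sum_div, div_div]
  have hK : (m.factorial : ℝ) * (n.choose m : ℝ) = (Fintype.card (Fin m ↪ Fin n) : ℝ) := by
    rw [Fintype.card_embedding_eq, Fintype.card_fin, Fintype.card_fin,
      Nat.descFactorial_eq_factorial_mul_choose]
    push_cast; ring
  rw [hK]
  congr 1
  refine Finset.sum_congr rfl fun S hS => Finset.sum_congr rfl fun π _ => ?_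
  have hmap : univ.map (π.symm.toEmbedding.trans (Function.Embedding.subtype _)) = S := by
    ext x
    rw [mem_map]
    constructor
    · rintro ⟨i, _, rfl⟩
      exact (π.symm i).2
    · intro hx
      exact ⟨π ⟨x, hx⟩, mem_univ _, by simp⟩
  rw [hmap]
  rfl

end Pool.Agent.V113.Rec
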